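import Pool.Agent.H916R2.OddChar

set_option autoImplicit false

/-!
Four numbers modulo `N` such that the sum of the sawtooth functions of all multiples by units
vanishes: two of them are opposite, when `N` is a prime number or has no prime factor below `11`.
-/

open Finset

namespace Pool.Agent.R340.PC

open Pool.Agent.H916R2 (saw SS exists_SS_ne_zero saw_zero)

/-- The sawtooth of an integer. -/
def sw (N : ℕ) (z : ℤ) : ℤ := if (N : ℤ) ∣ z then 0 else 2 * (z % N) - N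

lemma saw_cast {n : ℕ} [NeZero n] (z : ℤ) : saw ((z : ℤ) : ZMod n) = sw n z := by
  unfold saw sw
  by_cases h : (n : ℤ) ∣ z
  · rw [if_pos h, if_pos ((ZMod.intCast_zmod_eq_zero_iff_dvd z n).2 h)]
  · rw [if_neg h, if_neg (fun h' => h ((ZMod.intCast_zmod_eq_zero_iff_dvd z n).1 h')),
      ZMod.val_intCast]

lemma sw_mul {n g : ℕ} (hg : 0 < g) (z : ℤ) : sw (n * g) (g * z) = g * sw n z := by
  have hg' : (0 : ℤ) < g := by exact_mod_cast hg
  unfold sw
  have h1 : ((n * g : ℕ) : ℤ) ∣ g * z ↔ (n : ℤ) ∣ z := by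
    push_cast
    rw [mul_comm (n : ℤ) g]
    exact mul_dvd_mul_iff_left hg'.ne'
  by_cases h : (n : ℤ) ∣ z
  · rw [if_pos h, if_pos (h1.2 h), mul_zero]
  · rw [if_neg h, if_neg (fun h' => h (h1.1 h'))]
    have h2 : ((g : ℤ) * z) % ((n * g : ℕ) : ℤ) = g * (z % n) := by
      push_cast
      rw [mul_comm (n : ℤ) g, Int.mul_emod_mul_of_pos _ _ hg']
    rw [h2]
    push_cast
    ring

lemma sw_congr {n : ℕ} {y z : ℤ} (h : (n : ℤ) ∣ y - z) : sw n y = sw n z := by
  unfold sw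
  have h1 : (n : ℤ) ∣ y ↔ (n : ℤ) ∣ z := by
    constructor
    · intro h2; have := dvd_sub h2 h; simpa using this
    · intro h2; have := dvd_add h h2; simpa using this
  have h2 : y % (n : ℤ) = z % n := ((Int.modEq_iff_dvd.2 h).symm : y ≡ z [ZMOD n])
  simp only [h1, h2]

section char

variable {n : ℕ} [NeZero n]

lemma SS_unit (χ : DirichletCharacter ℂ n) (x : (ZMod n)ˣ) (a : ZMod n) :
    SS χ (x * a) = χ ((x⁻¹ : (ZMod n)ˣ) : ZMod n) * SS χ a := by
  unfold SS
  rw [← Equiv.sum_comp (Equiv.mulRight (x⁻¹ : (ZMod n)ˣ)), mul_sum]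
  refine sum_congr rfl fun t _ => ?_
  rw [Equiv.coe_mulRight, Units.val_mul, map_mul]
  have : ((t : ZMod n) * ((x⁻¹ : (ZMod n)ˣ) : ZMod n)) * ((x : ZMod n) * a) = t * a := by
    have := Units.inv_mul x
    rw [mul_assoc, ← mul_assoc ((x⁻¹ : (ZMod n)ˣ) : ZMod n), this, one_mul]
  rw [this]
  ring

/-- Orthogonality of the odd characters. -/
lemma odd_orth (a b : (ZMod n)ˣ) :
    ∑ χ : DirichletCharacter ℂ n, (1 - χ (-1)) * (χ ((a⁻¹ : (ZMod n)ˣ) : ZMod n) * χ (b : ZMod n)) =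
      (n.totient : ℂ) * ((if (a : ZMod n) = b then 1 else 0) - (if (a : ZMod n) = -b then 1 else 0)) := by
  have h1 := DirichletCharacter.sum_char_inv_mul_char_eq ℂ a.isUnit (b : ZMod n)
  have h2 := DirichletCharacter.sum_char_inv_mul_char_eq ℂ a.isUnit (-b : ZMod n)
  rw [ZMod.inv_coe_unit] at h1 h2
  have h3 : ∀ χ : DirichletCharacter ℂ n, (1 - χ (-1)) * (χ ((a⁻¹ : (ZMod n)ˣ) : ZMod n) * χ (b : ZMod n)) =
      χ ((a⁻¹ : (ZMod n)ˣ) : ZMod n) * χ (b : ZMod n) -
        χ ((a⁻¹ : (ZMod n)ˣ) : ZMod n) * χ (-b : ZMod n) := by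
    intro χ
    have : χ (-(b : ZMod n)) = χ (-1) * χ b := by rw [← map_mul]; congr 1; ring
    rw [this]
    ring
  rw [sum_congr rfl fun χ _ => h3 χ, sum_sub_distrib, h1, h2]
  split_ifs <;> simp

/-- **The core lemma.** -/
theorem core {N g : ℕ} (hN : N = n * g) (hg : 0 < g) (D : Fin 4 → ℤ)
    (hT : ∀ c : ℤ, IsCoprime c (N : ℤ) → ∑ i, sw N (c * D i) = 0) (A : Finset (Fin 4))
    (e : Fin 4 → ℤ) (hA : ∀ i ∈ A, D i = g * e i ∧ IsCoprime (e i) (n : ℤ)) (P : Finset ℕ)
    (h : ℕ → ℤ) (hcop : ∀ p ∈ P, IsCoprime (h p) (N : ℤ))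
    (hkill : ∀ i, i ∉ A → ∃ p ∈ P, (N : ℤ) ∣ (h p - 1) * D i)
    (hgood : ∀ χ : DirichletCharacter ℂ n, χ (-1) = -1 →
      (∃ p ∈ P, χ ((h p : ℤ) : ZMod n) = 1) ∨ SS χ 1 ≠ 0)
    (j : Fin 4) (hj : j ∈ A)
    (hav : ∀ S, S ⊆ P → S.Nonempty → ∀ i ∈ A, ¬ (n : ℤ) ∣ (∏ p ∈ S, h p) * e i - e j ∧
      ¬ (n : ℤ) ∣ (∏ p ∈ S, h p) * e i + e j) :
    (A.filter (fun i => (n : ℤ) ∣ e i - e j)).card = (A.filter (fun i => (n : ℤ) ∣ e i + e j)).card := by
  classical
  have hN0 : 0 < N := by rw [hN]; exact Nat.mul_pos (NeZero.pos n) hg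
  have : NeZero N := ⟨hN0.ne'⟩
  have hnN : n ∣ N := ⟨g, hN⟩
  have hnN' : (n : ℤ) ∣ N := by exact_mod_cast hnN
  -- products of the `h p`
  set H : Finset ℕ → ℤ := fun S => ∏ p ∈ S, h p with hH
  have hHcop : ∀ S ∈ P.powerset, IsCoprime (H S) (N : ℤ) := by
    intro S hS
    rw [mem_powerset] at hS
    exact IsCoprime.prod_left fun p hp => hcop p (hS hp)
  have hcn : ∀ {z : ℤ}, IsCoprime z (N : ℤ) → IsCoprime z (n : ℤ) := fun hz =>
    IsCoprime.of_isCoprime_of_dvd_right hz hnN'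
  -- the alternating sum of the killed terms
  have hkill' : ∀ (c : ℤ) (i : Fin 4), i ∉ A →
      ∑ S ∈ P.powerset, (-1 : ℤ) ^ S.card * sw N (c * H S * D i) = 0 := by
    intro c i hi
    obtain ⟨p, hp, hdvd⟩ := hkill i hi
    have hP : P = insert p (P.erase p) := (insert_erase hp).symm
    rw [hP, sum_powerset_insert (notMem_erase p P), ← sum_add_distrib]
    refine sum_eq_zero fun S hS => ?_
    have hpS : p ∉ S := fun h' => notMem_erase p P (mem_powerset.1 hS h')
    have h1 : H (insert p S) = h p * H S := prod_insert hpS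
    rw [card_insert_of_notMem hpS, h1]
    have h2 : sw N (c * (h p * H S) * D i) = sw N (c * H S * D i) := by
      apply sw_congr
      have : c * (h p * H S) * D i - c * H S * D i = c * H S * ((h p - 1) * D i) := by ring
      rw [this]
      exact hdvd.mul_left _
    rw [h2]
    ring
  have step1 : ∀ c : ℤ, IsCoprime c (N : ℤ) →
      ∑ S ∈ P.powerset, (-1 : ℤ) ^ S.card * ∑ i ∈ A, sw n (c * H S * e i) = 0 := by
    intro c hc
    have h0 : ∑ S ∈ P.powerset, (-1 : ℤ) ^ S.card * ∑ i, sw N (c * H S * D i) = 0 := by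
      refine sum_eq_zero fun S hS => ?_
      rw [hT _ (hc.mul_left (hHcop S hS)), mul_zero]
    have h1 : ∑ S ∈ P.powerset, (-1 : ℤ) ^ S.card * ∑ i, sw N (c * H S * D i) =
        ∑ i, ∑ S ∈ P.powerset, (-1 : ℤ) ^ S.card * sw N (c * H S * D i) := by
      rw [sum_comm]
      refine sum_congr rfl fun S _ => ?_
      rw [mul_sum]
    have h2 : ∑ i, ∑ S ∈ P.powerset, (-1 : ℤ) ^ S.card * sw N (c * H S * D i) =
        ∑ i ∈ A, ∑ S ∈ P.powerset, (-1 : ℤ) ^ S.card * sw N (c * H S * D i) := by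
      symm
      refine sum_subset (subset_univ _) fun i _ hi => hkill' c i hi
    have h3 : ∑ i ∈ A, ∑ S ∈ P.powerset, (-1 : ℤ) ^ S.card * sw N (c * H S * D i) =
        g * ∑ S ∈ P.powerset, (-1 : ℤ) ^ S.card * ∑ i ∈ A, sw n (c * H S * e i) := by
      rw [sum_comm, mul_sum]
      refine sum_congr rfl fun S _ => ?_
      have h4 : ∑ i ∈ A, sw N (c * H S * D i) = g * ∑ i ∈ A, sw n (c * H S * e i) := by
        rw [mul_sum]
        refine sum_congr rfl fun i hi => ?_
        rw [(hA i hi).1, hN]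
        have : c * H S * (g * e i) = g * (c * H S * e i) := by ring
        rw [this, sw_mul hg]
      rw [← mul_sum, h4]
      ring
    rw [h1, h2, h3] at h0
    have hg' : (g : ℤ) ≠ 0 := by exact_mod_cast hg.ne'
    exact (mul_eq_zero.1 h0).resolve_left hg'
  -- units
  have hunit : ∀ z : ℤ, IsCoprime z (n : ℤ) → ∃ u : (ZMod n)ˣ, (u : ZMod n) = (z : ZMod n) := by
    intro z hz
    exact ((ZMod.coe_int_isUnit_iff_isCoprime z n).2 hz.symm)
  choose! U hU using hunit
  have hHe : ∀ S ∈ P.powerset, ∀ i ∈ A, IsCoprime (H S * e i) (n : ℤ) := fun S hS i hi =>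
    (hcn (hHcop S hS)).mul_left (hA i hi).2
  have step1' : ∀ u : (ZMod n)ˣ,
      ∑ S ∈ P.powerset, (-1 : ℤ) ^ S.card * ∑ i ∈ A, saw ((u : ZMod n) * ((U (H S * e i) : (ZMod n)ˣ) : ZMod n)) = 0 := by
    intro u
    obtain ⟨v, hv⟩ := ZMod.unitsMap_surjective hnN u
    set c : ℤ := ((v : ZMod N).val : ℤ) with hc
    have hcN : ((c : ℤ) : ZMod N) = v := by rw [hc]; simp
    have hcc : IsCoprime c (N : ℤ) := by
      refine ((ZMod.coe_int_isUnit_iff_isCoprime c N).1 ?_).symm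
      rw [hcN]
      exact v.isUnit
    have hcu : ((c : ℤ) : ZMod n) = u := by
      rw [← hv, ZMod.unitsMap_val, ← hcN]
      rw [ZMod.cast_intCast hnN]
    have := step1 c hcc
    rw [← this]
    refine sum_congr rfl fun S hS => ?_
    congr 1
    refine sum_congr rfl fun i hi => ?_
    rw [hU _ (hHe S hS i hi), ← hcu, ← Int.cast_mul, saw_cast, mul_assoc]
  -- characters
  have step2 : ∀ χ : DirichletCharacter ℂ n, χ (-1) = -1 →
      ∑ S ∈ P.powerset, (-1 : ℂ) ^ S.card *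
        ∑ i ∈ A, χ (((U (H S * e i))⁻¹ : (ZMod n)ˣ) : ZMod n) = 0 := by
    intro χ hχ
    have h1 : (∑ S ∈ P.powerset, (-1 : ℂ) ^ S.card *
        ∑ i ∈ A, χ (((U (H S * e i))⁻¹ : (ZMod n)ˣ) : ZMod n)) * SS χ 1 = 0 := by
      have h2 : ∑ u : (ZMod n)ˣ, χ u * ((∑ S ∈ P.powerset, (-1 : ℤ) ^ S.card *
          ∑ i ∈ A, saw ((u : ZMod n) * ((U (H S * e i) : (ZMod n)ˣ) : ZMod n)) : ℤ) : ℂ) = 0 := by
        refine sum_eq_zero fun u _ => ?_
        rw [step1' u]
        simp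
      rw [← h2, sum_mul]
      have h3 : ∀ u : (ZMod n)ˣ, χ u * ((∑ S ∈ P.powerset, (-1 : ℤ) ^ S.card *
          ∑ i ∈ A, saw ((u : ZMod n) * ((U (H S * e i) : (ZMod n)ˣ) : ZMod n)) : ℤ) : ℂ) =
          ∑ S ∈ P.powerset, (-1 : ℂ) ^ S.card *
            ∑ i ∈ A, χ u * (saw ((u : ZMod n) * ((U (H S * e i) : (ZMod n)ˣ) : ZMod n)) : ℂ) := by
        intro u
        push_cast
        rw [mul_sum]
        refine sum_congr rfl fun S _ => ?_
        rw [mul_left_comm, mul_sum]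
      rw [sum_congr rfl fun u _ => h3 u, sum_comm]
      refine sum_congr rfl fun S _ => ?_
      rw [← mul_sum, sum_comm, mul_assoc, sum_mul]
      congr 1
      refine sum_congr rfl fun i _ => ?_
      rw [← SS_unit χ (U (H S * e i)) 1]
      unfold SS
      refine sum_congr rfl fun u _ => ?_
      rw [mul_one]
    rcases mul_eq_zero.1 h1 with h2 | h2
    · exact h2
    · rcases hgood χ hχ with ⟨p, hp, hp1⟩ | h3
      · -- the alternating sum vanishes
        have hP : P = insert p (P.erase p) := (insert_erase hp).symm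
        rw [hP, sum_powerset_insert (notMem_erase p P), ← sum_add_distrib]
        refine sum_eq_zero fun S hS => ?_
        have hpS : p ∉ S := fun h' => notMem_erase p P (mem_powerset.1 hS h')
        have hSP : S ∈ P.powerset := mem_powerset.2 ((mem_powerset.1 hS).trans (erase_subset _ _))
        have hSP' : insert p S ∈ P.powerset := by
          rw [mem_powerset]
          exact insert_subset hp (mem_powerset.1 hSP)
        have h4 : H (insert p S) = h p * H S := prod_insert hpS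
        rw [card_insert_of_notMem hpS]
        have h5 : ∀ i ∈ A, χ (((U (H (insert p S) * e i))⁻¹ : (ZMod n)ˣ) : ZMod n) =
            χ (((U (H S * e i))⁻¹ : (ZMod n)ˣ) : ZMod n) := by
          intro i hi
          have h6 : U (H (insert p S) * e i) = U (h p) * U (H S * e i) := by
            ext
            rw [hU _ (hHe _ hSP' i hi), Units.val_mul, hU _ (hHe S hSP i hi), hU _ (hcn (hcop p hp)),
              h4]
            push_cast
            ring
          have h7 : χ (((U (h p))⁻¹ : (ZMod n)ˣ) : ZMod n) = 1 := by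
            have h8 : χ (((U (h p))⁻¹ : (ZMod n)ˣ) : ZMod n) * χ ((U (h p) : (ZMod n)ˣ) : ZMod n) = 1 := by
              rw [← map_mul, Units.inv_mul, map_one]
            rw [hU _ (hcn (hcop p hp)), hp1, mul_one] at h8
            exact h8
          rw [h6, mul_inv, Units.val_mul, map_mul, h7, one_mul]
        rw [sum_congr rfl h5, pow_succ]
        ring
      · exact absurd h2 h3
  -- orthogonality
  have step3 : ∑ S ∈ P.powerset, (-1 : ℂ) ^ S.card * ∑ i ∈ A,
      ((n.totient : ℂ) * ((if ((U (H S * e i) : (ZMod n)ˣ) : ZMod n) = U (e j) then 1 else 0) -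
        (if ((U (H S * e i) : (ZMod n)ˣ) : ZMod n) = -(U (e j)) then 1 else 0))) = 0 := by
    have h1 : ∑ χ : DirichletCharacter ℂ n, (1 - χ (-1)) * (χ (U (e j) : ZMod n) *
        ∑ S ∈ P.powerset, (-1 : ℂ) ^ S.card *
          ∑ i ∈ A, χ (((U (H S * e i))⁻¹ : (ZMod n)ˣ) : ZMod n)) = 0 := by
      refine sum_eq_zero fun χ _ => ?_
      have h2 : χ (-1) = 1 ∨ χ (-1) = -1 := χ.even_or_odd
      rcases h2 with h2 | h2
      · rw [h2]; simp
      · rw [step2 χ h2]; simp
    refine Eq.trans ?_ h1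
    have h3 : ∀ χ : DirichletCharacter ℂ n, (1 - χ (-1)) * (χ (U (e j) : ZMod n) *
        ∑ S ∈ P.powerset, (-1 : ℂ) ^ S.card *
          ∑ i ∈ A, χ (((U (H S * e i))⁻¹ : (ZMod n)ˣ) : ZMod n)) =
        ∑ S ∈ P.powerset, (-1 : ℂ) ^ S.card *
          ∑ i ∈ A, (1 - χ (-1)) * (χ (((U (H S * e i))⁻¹ : (ZMod n)ˣ) : ZMod n) *
            χ (U (e j) : ZMod n)) := by
      intro χ
      rw [mul_sum, mul_sum]
      refine sum_congr rfl fun S _ => ?_
      rw [mul_sum, mul_sum, mul_sum, mul_sum]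
      refine sum_congr rfl fun i _ => ?_
      ring
    rw [sum_congr rfl fun χ _ => h3 χ]
    have h4 : ∀ (X : DirichletCharacter ℂ n → Finset ℕ → Fin 4 → ℂ),
        ∑ χ : DirichletCharacter ℂ n, ∑ S ∈ P.powerset, (-1 : ℂ) ^ S.card * ∑ i ∈ A, X χ S i =
          ∑ S ∈ P.powerset, (-1 : ℂ) ^ S.card * ∑ i ∈ A, ∑ χ : DirichletCharacter ℂ n, X χ S i := by
      intro X
      rw [sum_comm]
      refine sum_congr rfl fun S _ => ?_
      rw [← mul_sum, sum_comm]
    rw [h4]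
    refine sum_congr rfl fun S _ => ?_
    congr 1
    refine sum_congr rfl fun i _ => ?_
    exact (odd_orth (U (H S * e i)) (U (e j))).symm
  have hφ : (n.totient : ℂ) ≠ 0 := by
    exact_mod_cast (Nat.totient_pos.2 (NeZero.pos n)).ne'
  have heq : ∀ y z : ℤ, ((y : ℤ) : ZMod n) = ((z : ℤ) : ZMod n) ↔ (n : ℤ) ∣ y - z := by
    intro y z
    rw [← sub_eq_zero, ← Int.cast_sub, ZMod.intCast_zmod_eq_zero_iff_dvd]
  rw [sum_eq_single ∅] at step3
  · have hH0 : H ∅ = 1 := prod_empty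
    have h1 : ∀ i ∈ A, ((n.totient : ℂ) * ((if ((U (H ∅ * e i) : (ZMod n)ˣ) : ZMod n) = U (e j) then 1 else 0) -
        (if ((U (H ∅ * e i) : (ZMod n)ˣ) : ZMod n) = -(U (e j)) then 1 else 0))) =
        (n.totient : ℂ) * (((if (n : ℤ) ∣ e i - e j then 1 else 0) - (if (n : ℤ) ∣ e i + e j then 1 else 0) : ℤ) : ℂ) := by
      intro i hi
      have h2 : ((U (H ∅ * e i) : (ZMod n)ˣ) : ZMod n) = ((e i : ℤ) : ZMod n) := by
        rw [hU _ (hHe ∅ (empty_mem_powerset _) i hi), hH0, one_mul]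
      rw [h2, hU _ (hA j hj).2, ← Int.cast_neg]
      simp only [heq, sub_neg_eq_add]
      push_cast
      rfl
    rw [sum_congr rfl h1, ← mul_sum, ← Int.cast_sum] at step3
    simp only [card_empty, pow_zero, one_mul] at step3
    have h3 := (mul_eq_zero.1 step3).resolve_left hφ
    have h4 : ∑ i ∈ A, ((if (n : ℤ) ∣ e i - e j then (1 : ℤ) else 0) - (if (n : ℤ) ∣ e i + e j then 1 else 0)) = 0 := by
      exact_mod_cast h3
    rw [sum_sub_distrib, sum_boole, sum_boole] at h4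
    have h5 : ((A.filter (fun i => (n : ℤ) ∣ e i - e j)).card : ℤ) =
      ((A.filter (fun i => (n : ℤ) ∣ e i + e j)).card : ℤ) := by linarith
    exact_mod_cast h5
  · intro S hS hne
    rw [sum_eq_zero, mul_zero]
    intro i hi
    obtain ⟨h1, h2⟩ := hav S (mem_powerset.1 hS) (nonempty_iff_ne_empty.2 hne) i hi
    rw [hU _ (hHe S hS i hi), hU _ (hA j hj).2, ← Int.cast_neg]
    simp only [heq, sub_neg_eq_add]
    rw [if_neg h1, if_neg h2]
    ring
  · intro h1
    exact absurd (empty_mem_powerset P) h1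

end char

end Pool.Agent.R340.PC
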