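import Pool.Agent.TH295.PC.ArithR
import Pool.Agent.W280.PC.Average

set_option autoImplicit false

/-!
Four numbers modulo an odd `N` such that all vectors with odd coordinate sum which are congruent, up
to the signs of the coordinates, to a multiple by a unit, have norm greater than `N`: the
non-resonant case.
-/

open Finset

namespace Pool.Agent.R340.PC

open Pool.Agent.W280.PC (Uni arith)
open Pool.Agent.TH295.PC (arithA Adm)

/-- All vectors with odd sum in the classes of the multiples `c * D` have norm greater than `N`. -/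
def Far (N : ℕ) (D : Fin 4 → ℤ) : Prop :=
  ∀ c : ℤ, IsCoprime c (N : ℤ) → ∀ s : Fin 4 → ℤ,
    (∀ i, (N : ℤ) ∣ s i - c * D i ∨ (N : ℤ) ∣ s i + c * D i) →
    (∀ i, (N : ℤ) ∣ D i → s i = 0) → Odd (∑ i, s i) → (N : ℤ) < ∑ i, |s i|

/-- The denominator `N` is a prime number or has no prime factor below `29`. -/
def PrimeOrRough (N : ℕ) : Prop := N.Prime ∨ ∀ p : ℕ, p.Prime → p ∣ N → 29 ≤ p

section uni

variable {N : ℕ} {D : Fin 4 → ℤ}

/-- The inequalities used in the average. -/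
lemma uni_of_far (hN : Odd N) (hF : Far N D) (h : ℤ) (hh : 2 * h = N + 1) (c : ℤ)
    (hc : IsCoprime c (N : ℤ)) :
    Uni N (-h * (D 0 + D 1 + D 2 + D 3)) (-h * (D 0 + D 1 + D 2 - D 3)) (D 0) (D 1) (D 2) c := by
  have hN0 : (0 : ℤ) < N := by exact_mod_cast hN.pos
  obtain ⟨n1, hn1⟩ := hN
  have hNe : (N : ℤ) = 2 * n1 + 1 := by exact_mod_cast hn1
  unfold Uni
  set a : ℤ := -h * (D 0 + D 1 + D 2 + D 3) with ha
  set b : ℤ := -h * (D 0 + D 1 + D 2 - D 3) with hb
  set x : ℤ := (c * a) % N with hx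
  set y : ℤ := (c * b) % N with hy
  set t1 : ℤ := (-(c * D 0)) % N with ht1
  set t2 : ℤ := (-(c * D 1)) % N with ht2
  set t3 : ℤ := (-(c * D 2)) % N with ht3
  have hx0 := Int.emod_nonneg (c * a) hN0.ne'
  have hx1 := Int.emod_lt_of_pos (c * a) hN0
  have hy0 := Int.emod_nonneg (c * b) hN0.ne'
  have hy1 := Int.emod_lt_of_pos (c * b) hN0
  have h10 := Int.emod_nonneg (-(c * D 0)) hN0.ne'
  have h11 := Int.emod_lt_of_pos (-(c * D 0)) hN0
  have h20 := Int.emod_nonneg (-(c * D 1)) hN0.ne'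
  have h21 := Int.emod_lt_of_pos (-(c * D 1)) hN0
  have h30 := Int.emod_nonneg (-(c * D 2)) hN0.ne'
  have h31 := Int.emod_lt_of_pos (-(c * D 2)) hN0
  rw [← hx] at hx0 hx1
  rw [← hy] at hy0 hy1
  rw [← ht1] at h10 h11
  rw [← ht2] at h20 h21
  rw [← ht3] at h30 h31
  obtain ⟨qx, hqx⟩ : (N : ℤ) ∣ c * a - x := Int.dvd_self_sub_emod
  obtain ⟨qy, hqy⟩ : (N : ℤ) ∣ c * b - y := Int.dvd_self_sub_emod
  obtain ⟨q1, hq1⟩ : (N : ℤ) ∣ -(c * D 0) - t1 := Int.dvd_self_sub_emod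
  obtain ⟨q2, hq2⟩ : (N : ℤ) ∣ -(c * D 1) - t2 := Int.dvd_self_sub_emod
  obtain ⟨q3, hq3⟩ : (N : ℤ) ∣ -(c * D 2) - t3 := Int.dvd_self_sub_emod
  -- the last coordinate
  have h4 : (N : ℤ) ∣ (x - y) + c * D 3 := by
    refine ⟨-c * D 3 - qx + qy, ?_⟩
    have e1 : c * a - c * b = -c * (2 * h) * D 3 := by rw [ha, hb]; ring
    rw [hh] at e1
    linear_combination e1 - hqx + hqy
  have hz : ∀ {t z q : ℤ}, 0 ≤ t → t < N → -(c * z) - t = N * q → (N : ℤ) ∣ z → t = 0 := by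
    intro t z q ht0 ht1 hq hz
    obtain ⟨w, hw⟩ := hz
    have hdvd : (N : ℤ) ∣ t := ⟨-(c * w) - q, by rw [hw] at hq; linear_combination -hq⟩
    exact Int.eq_zero_of_dvd_of_nonneg_of_lt ht0 ht1 hdvd
  have hz3 : (N : ℤ) ∣ D 3 → x - y = 0 := by
    intro hd
    have h5 : (N : ℤ) ∣ x - y := (dvd_add_left (hd.mul_left c)).1 h4
    rcases le_total x y with hxy | hxy
    · have h6 : (N : ℤ) ∣ y - x := by rw [← neg_sub]; exact (dvd_neg).2 h5
      have := Int.eq_zero_of_dvd_of_nonneg_of_lt (by linarith) (by linarith) h6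
      linarith
    · exact Int.eq_zero_of_dvd_of_nonneg_of_lt (by linarith) (by linarith) h5
  -- the sum
  obtain ⟨n, hn⟩ : (N : ℤ) ∣ x + y - (t1 + t2 + t3) := by
    refine ⟨-c * (D 0 + D 1 + D 2) - qx - qy + q1 + q2 + q3, ?_⟩
    have e1 : c * a + c * b = -c * (2 * h) * (D 0 + D 1 + D 2) := by rw [ha, hb]; ring
    rw [hh] at e1
    linear_combination e1 - hqx - hqy + hq1 + hq2 + hq3
  have hsum4 : ∀ p q r s : ℤ, ∑ i : Fin 4, (![p, q, r, s] : Fin 4 → ℤ) i = p + q + r + s := by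
    intro p q r s
    simp [Fin.sum_univ_four]
  have habs4 : ∀ p q r s : ℤ, ∑ i : Fin 4, |(![p, q, r, s] : Fin 4 → ℤ) i| = |p| + |q| + |r| + |s| := by
    intro p q r s
    simp [Fin.sum_univ_four]
  have hmaxabs : |x - y| = 2 * max x y - x - y := by
    rcases le_total x y with hxy | hxy
    · rw [max_eq_right hxy, abs_of_nonpos (by linarith)]; ring
    · rw [max_eq_left hxy, abs_of_nonneg (by linarith)]; ring
  have hmaxlt : max x y < N := max_lt hx1 hy1
  have hmax0 : 0 ≤ max x y := le_max_of_le_left hx0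
  have hcong : ∀ {t z q k : ℤ}, -(c * z) - t = N * q →
      (N : ℤ) ∣ (t + N * k) - c * z ∨ (N : ℤ) ∣ (t + N * k) + c * z := by
    intro t z q k hq
    right
    exact ⟨k - q, by linear_combination -hq⟩
  refine ⟨?_, ?_⟩
  · by_contra hlt
    push Not at hlt
    have hn0 : 0 < n := by
      have : 0 < (N : ℤ) * n := by linarith
      exact (mul_pos_iff_of_pos_left hN0).1 this
    have hn2 : n < 2 := by
      by_contra hc2
      push Not at hc2
      have : (N : ℤ) * 2 ≤ N * n := mul_le_mul_of_nonneg_left hc2 hN0.le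
      linarith
    have hn1' : n = 1 := by omega
    subst hn1'
    have := hF c hc ![t1, t2, t3, x - y] (by
      intro i
      fin_cases i
      · simpa using hcong (k := 0) hq1
      · simpa using hcong (k := 0) hq2
      · simpa using hcong (k := 0) hq3
      · right; simpa using h4) (by
      intro i hi
      fin_cases i
      · exact hz h10 h11 hq1 hi
      · exact hz h20 h21 hq2 hi
      · exact hz h30 h31 hq3 hi
      · exact hz3 hi) (by
      rw [hsum4]
      refine ⟨x - n1 - 1, ?_⟩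
      linear_combination -hn - hNe)
    rw [habs4, abs_of_nonneg h10, abs_of_nonneg h20, abs_of_nonneg h30, hmaxabs] at this
    linarith
  · intro heq
    have key : ∀ (t z q : ℤ) (s : Fin 4 → ℤ), 0 ≤ t → -(c * z) - t = N * q → t < N →
        (max x y < t → (∀ i, (N : ℤ) ∣ s i - c * D i ∨ (N : ℤ) ∣ s i + c * D i) ∧
          (∀ i, (N : ℤ) ∣ D i → s i = 0) ∧ ∑ i, s i = (t1 + t2 + t3) - N + (x - y) ∧
          ∑ i, |s i| = (t1 + t2 + t3) + N - 2 * t + |x - y|) → t ≤ max x y := by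
      intro t z q s ht0 hq htN hs
      by_contra hlt
      push Not at hlt
      obtain ⟨g1, g2, g3, g4⟩ := hs hlt
      have := hF c hc s g1 g2 (by
        rw [g3]
        refine ⟨x - n1 - 1, ?_⟩
        linear_combination heq - hNe)
      rw [g4, hmaxabs] at this
      linarith
    refine ⟨?_, ?_, ?_⟩
    · refine key t1 (D 0) q1 ![t1 - N, t2, t3, x - y] h10 hq1 h11 fun hlt => ⟨?_, ?_, ?_, ?_⟩
      · intro i
        fin_cases i
        · simpa [sub_eq_add_neg] using hcong (k := -1) hq1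
        · simpa using hcong (k := 0) hq2
        · simpa using hcong (k := 0) hq3
        · right; simpa using h4
      · intro i hi
        fin_cases i
        · exfalso
          have := hz h10 h11 hq1 hi
          linarith
        · exact hz h20 h21 hq2 hi
        · exact hz h30 h31 hq3 hi
        · exact hz3 hi
      · rw [hsum4]; ring
      · rw [habs4, abs_of_nonneg h20, abs_of_nonneg h30, abs_of_nonpos (by linarith)]; ring
    · refine key t2 (D 1) q2 ![t1, t2 - N, t3, x - y] h20 hq2 h21 fun hlt => ⟨?_, ?_, ?_, ?_⟩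
      · intro i
        fin_cases i
        · simpa using hcong (k := 0) hq1
        · simpa [sub_eq_add_neg] using hcong (k := -1) hq2
        · simpa using hcong (k := 0) hq3
        · right; simpa using h4
      · intro i hi
        fin_cases i
        · exact hz h10 h11 hq1 hi
        · exfalso
          have := hz h20 h21 hq2 hi
          linarith
        · exact hz h30 h31 hq3 hi
        · exact hz3 hi
      · rw [hsum4]; ring
      · rw [habs4, abs_of_nonneg h10, abs_of_nonneg h30, abs_of_nonpos (show t2 - N ≤ 0 by linarith)]; ring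
    · refine key t3 (D 2) q3 ![t1, t2, t3 - N, x - y] h30 hq3 h31 fun hlt => ⟨?_, ?_, ?_, ?_⟩
      · intro i
        fin_cases i
        · simpa using hcong (k := 0) hq1
        · simpa using hcong (k := 0) hq2
        · simpa [sub_eq_add_neg] using hcong (k := -1) hq3
        · right; simpa using h4
      · intro i hi
        fin_cases i
        · exact hz h10 h11 hq1 hi
        · exact hz h20 h21 hq2 hi
        · exfalso
          have := hz h30 h31 hq3 hi
          linarith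
        · exact hz3 hi
      · rw [hsum4]; ring
      · rw [habs4, abs_of_nonneg h10, abs_of_nonneg h20, abs_of_nonpos (show t3 - N ≤ 0 by linarith)]; ring

end uni

/-- **The non-resonant case is impossible.** -/
theorem nonresonant {N : ℕ} {D : Fin 4 → ℤ} (hN1 : 1 < N) (hN : Odd N) (hPR : PrimeOrRough N)
    (hF : Far N D)
    (hres : ∀ κ : Fin 4 → ℤ, (∀ i, κ i = 1 ∨ κ i = -1) → ¬ (N : ℤ) ∣ ∑ i, κ i * D i) : False := by
  have hN0 : (0 : ℤ) < N := by exact_mod_cast hN.pos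
  obtain ⟨n1, hn1⟩ := id hN
  have hNe : (N : ℤ) = 2 * n1 + 1 := by exact_mod_cast hn1
  set h : ℤ := n1 + 1 with hh
  have h2 : 2 * h = N + 1 := by rw [hh, hNe]; ring
  have hU : ∀ c : ℤ, IsCoprime c (N : ℤ) → Uni N (-h * (D 0 + D 1 + D 2 + D 3))
      (-h * (D 0 + D 1 + D 2 - D 3)) (D 0) (D 1) (D 2) c := fun c hc => uni_of_far hN hF h h2 c hc
  have hsum : (N : ℤ) ∣ -h * (D 0 + D 1 + D 2 + D 3) + -h * (D 0 + D 1 + D 2 - D 3) + D 0 + D 1 + D 2 := by
    refine ⟨-(D 0 + D 1 + D 2), ?_⟩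
    linear_combination -(D 0 + D 1 + D 2) * h2
  -- twice a number is the signed sum
  have hhalf : ∀ z w : ℤ, (N : ℤ) ∣ 2 * z - w → ¬ (N : ℤ) ∣ w → ¬ (N : ℤ) ∣ z := by
    intro z w h1 h3 h4
    apply h3
    have := dvd_sub (h4.mul_left 2) h1
    simpa using this
  have hS : ∀ k0 k1 k2 k3 : ℤ, (k0 = 1 ∨ k0 = -1) → (k1 = 1 ∨ k1 = -1) → (k2 = 1 ∨ k2 = -1) →
      (k3 = 1 ∨ k3 = -1) → ¬ (N : ℤ) ∣ k0 * D 0 + k1 * D 1 + k2 * D 2 + k3 * D 3 := by
    intro k0 k1 k2 k3 g0 g1 g2 g3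
    have := hres ![k0, k1, k2, k3] (by
      intro i; fin_cases i
      · exact g0
      · exact g1
      · exact g2
      · exact g3)
    rw [Fin.sum_univ_four] at this
    exact this
  have n0 : ¬ (N : ℤ) ∣ -h * (D 0 + D 1 + D 2 + D 3) :=
    hhalf _ (-1 * D 0 + -1 * D 1 + -1 * D 2 + -1 * D 3)
      ⟨-(D 0 + D 1 + D 2 + D 3), by linear_combination -(D 0 + D 1 + D 2 + D 3) * h2⟩
      (hS _ _ _ _ (by simp) (by simp) (by simp) (by simp))
  have n1' : ¬ (N : ℤ) ∣ -h * (D 0 + D 1 + D 2 + D 3) + D 0 :=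
    hhalf _ (1 * D 0 + -1 * D 1 + -1 * D 2 + -1 * D 3)
      ⟨-(D 0 + D 1 + D 2 + D 3), by linear_combination -(D 0 + D 1 + D 2 + D 3) * h2⟩
      (hS _ _ _ _ (by simp) (by simp) (by simp) (by simp))
  have n2 : ¬ (N : ℤ) ∣ -h * (D 0 + D 1 + D 2 + D 3) + D 1 :=
    hhalf _ (-1 * D 0 + 1 * D 1 + -1 * D 2 + -1 * D 3)
      ⟨-(D 0 + D 1 + D 2 + D 3), by linear_combination -(D 0 + D 1 + D 2 + D 3) * h2⟩
      (hS _ _ _ _ (by simp) (by simp) (by simp) (by simp))
  have n3 : ¬ (N : ℤ) ∣ -h * (D 0 + D 1 + D 2 + D 3) + D 2 :=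
    hhalf _ (-1 * D 0 + -1 * D 1 + 1 * D 2 + -1 * D 3)
      ⟨-(D 0 + D 1 + D 2 + D 3), by linear_combination -(D 0 + D 1 + D 2 + D 3) * h2⟩
      (hS _ _ _ _ (by simp) (by simp) (by simp) (by simp))
  have n12 : ¬ (N : ℤ) ∣ -h * (D 0 + D 1 + D 2 + D 3) + (D 0 + D 1) :=
    hhalf _ (1 * D 0 + 1 * D 1 + -1 * D 2 + -1 * D 3)
      ⟨-(D 0 + D 1 + D 2 + D 3), by linear_combination -(D 0 + D 1 + D 2 + D 3) * h2⟩
      (hS _ _ _ _ (by simp) (by simp) (by simp) (by simp))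
  have n13 : ¬ (N : ℤ) ∣ -h * (D 0 + D 1 + D 2 + D 3) + (D 0 + D 2) :=
    hhalf _ (1 * D 0 + -1 * D 1 + 1 * D 2 + -1 * D 3)
      ⟨-(D 0 + D 1 + D 2 + D 3), by linear_combination -(D 0 + D 1 + D 2 + D 3) * h2⟩
      (hS _ _ _ _ (by simp) (by simp) (by simp) (by simp))
  have n23 : ¬ (N : ℤ) ∣ -h * (D 0 + D 1 + D 2 + D 3) + (D 1 + D 2) :=
    hhalf _ (-1 * D 0 + 1 * D 1 + 1 * D 2 + -1 * D 3)
      ⟨-(D 0 + D 1 + D 2 + D 3), by linear_combination -(D 0 + D 1 + D 2 + D 3) * h2⟩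
      (hS _ _ _ _ (by simp) (by simp) (by simp) (by simp))
  have n123 : ¬ (N : ℤ) ∣ -h * (D 0 + D 1 + D 2 + D 3) + (D 0 + D 1 + D 2) :=
    hhalf _ (1 * D 0 + 1 * D 1 + 1 * D 2 + -1 * D 3)
      ⟨-(D 0 + D 1 + D 2 + D 3), by linear_combination -(D 0 + D 1 + D 2 + D 3) * h2⟩
      (hS _ _ _ _ (by simp) (by simp) (by simp) (by simp))
  rcases hPR with hp | hR
  · have hcop : ∀ z : ℤ, ¬ (N : ℤ) ∣ z → IsCoprime z (N : ℤ) := by
      intro z hz
      exact ((Nat.prime_iff_prime_int.1 hp).coprime_iff_not_dvd.2 hz).symm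
    have hcop' : ∀ z : ℤ, IsCoprime z (N : ℤ) ∨ (N : ℤ) ∣ z := by
      intro z
      by_cases hz : (N : ℤ) ∣ z
      · exact Or.inr hz
      · exact Or.inl (hcop z hz)
    exact arith hN1 hsum (hcop' _) (hcop' _) (hcop' _) (hcop' _) (hcop _ n0) (hcop _ n1') (hcop _ n2)
      (hcop _ n3) (hcop _ n12) (hcop _ n13) (hcop _ n23) (hcop _ n123) hU
  · have hadm : ∀ (M : ℕ) (z : ℤ), Adm 29 M (N / Int.gcd z N) := by
      intro M z
      right
      intro p hp hpd
      refine hR p hp (hpd.trans (Nat.div_dvd_of_dvd ?_))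
      exact Int.gcd_dvd_natAbs_right z N |>.trans (by simp)
    exact arithA hN1 hsum ⟨n0, hadm _ _⟩ ⟨n1', hadm _ _⟩ ⟨n2, hadm _ _⟩ ⟨n3, hadm _ _⟩ ⟨n12, hadm _ _⟩
      ⟨n13, hadm _ _⟩ ⟨n23, hadm _ _⟩ ⟨n123, hadm _ _⟩ (hadm _ _) (hadm _ _) (hadm _ _) (hadm _ _) hU

end Pool.Agent.R340.PC
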