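import Pool.Agent.TH295.PC.ArithR

set_option autoImplicit false

/-!
Averages over the units modulo `2 n`, for `n` without small prime factors.
-/

namespace Pool.Agent.R340.PC

open Finset Pool.Agent.TH295.PC

lemma bet_two : bet 2 = -1 / 12 := by
  rw [bet_prime Nat.prime_two]
  norm_num

lemma tau_two : tau 24 2 = 0 := by
  rw [tau_eq (by norm_num) (by norm_num), Nat.prime_two.primeFactors]
  have h2 : ({2} : Finset ℕ).powerset = {∅, {2}} := by
    ext T; simp [Finset.subset_singleton_iff]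
  have hne : (∅ : Finset ℕ) ≠ {2} := (Finset.singleton_ne_empty 2).symm
  rw [h2, Finset.sum_pair hne]
  simp only [Finset.card_empty, pow_zero, one_mul, Finset.prod_empty, Nat.div_one,
    Finset.card_singleton, pow_one, Finset.prod_singleton, Nat.totient_two]
  rw [E_lt (K := 24) (e := 2) (by norm_num) (by norm_num),
    E_lt (K := 24) (e := 2 / 2) (by norm_num) (by norm_num)]
  norm_num

/-- the prime factors of `2 n` -/
lemma primeFactors_two_mul {n : ℕ} (hn : 0 < n) : (2 * n).primeFactors = insert 2 n.primeFactors := by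
  rw [Nat.primeFactors_mul (by norm_num) hn.ne', Nat.prime_two.primeFactors]
  rfl

lemma bet_two_prime {p : ℕ} (hp : p.Prime) (h2 : p ≠ 2) : bet (2 * p) = 1 / (12 * p) := by
  have hp0 : (p : ℝ) ≠ 0 := by exact_mod_cast hp.ne_zero
  rw [bet_eq (by have := hp.pos; omega), primeFactors_two_mul hp.pos, hp.primeFactors]
  rw [show (insert 2 {p} : Finset ℕ) = {2, p} from rfl, Finset.prod_pair (Ne.symm h2)]
  push_cast
  field_simp
  norm_num

lemma tau_two_prime {p : ℕ} (hp : p.Prime) (h2 : p ≠ 2) :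
    tau 24 (2 * p) ≤ 1 / 24 + (3 / p + 1 / 24) / (p - 1) := by
  have hp1 : (1 : ℝ) < p := by exact_mod_cast hp.one_lt
  have hcop : Nat.Coprime 2 p := (Nat.coprime_primes Nat.prime_two hp).2 (Ne.symm h2)
  rw [tau_eq (by norm_num) (by have := hp.pos; omega), primeFactors_two_mul hp.pos, hp.primeFactors,
    Nat.totient_mul hcop, Nat.totient_prime hp, Nat.totient_two, one_mul]
  have h1 : ((p - 1 : ℕ) : ℝ) = p - 1 := by
    rw [Nat.cast_sub hp.one_lt.le]; norm_num
  have hps : (insert 2 {p} : Finset ℕ).powerset = {∅, {2}, {p}, {2, p}} := by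
    rw [Finset.powerset_insert]
    have h3 : ({p} : Finset ℕ).powerset = {∅, {p}} := by
      ext T; simp [Finset.subset_singleton_iff]
    rw [h3]
    ext T
    simp only [Finset.mem_union, Finset.mem_insert, Finset.mem_singleton, Finset.mem_image,
      exists_eq_or_imp, exists_eq_left]
    constructor
    · rintro ((h | h) | (h | h))
      · exact Or.inl h
      · exact Or.inr (Or.inr (Or.inl h))
      · right; left; rw [← h]; rfl
      · right; right; right; rw [← h]
    · rintro (h | h | h | h)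
      · exact Or.inl (Or.inl h)
      · right; left; rw [h]; rfl
      · exact Or.inl (Or.inr h)
      · right; right; rw [h]
  have n1 : (∅ : Finset ℕ) ∉ ({{2}, {p}, {2, p}} : Finset (Finset ℕ)) := by
    simp only [Finset.mem_insert, Finset.mem_singleton, not_or]
    refine ⟨(Finset.singleton_ne_empty 2).symm, (Finset.singleton_ne_empty p).symm,
      (Finset.insert_ne_empty 2 {p}).symm⟩
  have n2 : ({2} : Finset ℕ) ∉ ({{p}, {2, p}} : Finset (Finset ℕ)) := by
    simp only [Finset.mem_insert, Finset.mem_singleton, not_or]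
    refine ⟨?_, ?_⟩
    · intro h
      exact h2 (Finset.singleton_injective h).symm
    · intro h
      have h3 : p ∈ ({2} : Finset ℕ) := by rw [h]; simp
      exact h2 (Finset.mem_singleton.1 h3)
  have n3 : ({p} : Finset ℕ) ∉ ({{2, p}} : Finset (Finset ℕ)) := by
    rw [Finset.mem_singleton]
    intro h
    have h3 : 2 ∈ ({p} : Finset ℕ) := by rw [h]; simp
    exact h2 (Finset.mem_singleton.1 h3).symm
  rw [hps, Finset.sum_insert n1, Finset.sum_insert n2, Finset.sum_insert n3, Finset.sum_singleton]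
  have e1 : 2 * p / (∏ q ∈ (∅ : Finset ℕ), q) = 2 * p := by simp
  have e2 : 2 * p / (∏ q ∈ ({2} : Finset ℕ), q) = p := by
    rw [Finset.prod_singleton]; exact Nat.mul_div_cancel_left p (by norm_num)
  have e3 : 2 * p / (∏ q ∈ ({p} : Finset ℕ), q) = 2 := by
    rw [Finset.prod_singleton]; exact Nat.mul_div_cancel 2 hp.pos
  have e4 : 2 * p / (∏ q ∈ ({2, p} : Finset ℕ), q) = 1 := by
    rw [Finset.prod_pair (Ne.symm h2)]; exact Nat.div_self (by have := hp.pos; omega)
  rw [e1, e2, e3, e4, Finset.card_empty, Finset.card_singleton, Finset.card_singleton,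
    Finset.card_pair (Ne.symm h2), E_lt (K := 24) (e := 2) (by norm_num) (by norm_num),
    E_lt (K := 24) (e := 1) (by norm_num) (by norm_num), h1]
  have h4 := E_le 24 (2 * p)
  have h5 := E_nonneg 24 p
  have h6 : (-1 : ℝ) ^ 0 * E 24 (2 * p) + ((-1) ^ 1 * E 24 p + ((-1) ^ 1 * (1 - ((2 : ℕ) : ℝ) / ((24 : ℕ) : ℝ)) +
      (-1) ^ 2 * (1 - ((1 : ℕ) : ℝ) / ((24 : ℕ) : ℝ)))) ≤ 3 / p + 1 / 24 := by
    have h7 : (((24 : ℕ) : ℝ)) / (4 * ((2 * p : ℕ) : ℝ)) = 3 / p := by
      push_cast
      field_simp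
      norm_num
    rw [h7] at h4
    norm_num
    linarith
  have h8 := div_le_div_of_nonneg_right h6 (show (0 : ℝ) ≤ (p : ℝ) - 1 by linarith)
  have h9 : (1 : ℝ) / ((24 : ℕ) : ℝ) = 1 / 24 := by norm_num
  rw [h9]
  linarith

lemma tau_two_rough {l n : ℕ} (hl : 3 ≤ l) (h : Rough l n) (hn : 1 < n) (hnp : ¬ n.Prime) :
    tau 24 (2 * n) ≤ 1 / 24 + 4 / ((l : ℝ) - 1) ^ 2 := by
  have hl' : (3 : ℝ) ≤ l := by exact_mod_cast hl
  have h2n : ¬ 2 ∣ n := fun h2 => by have := h 2 Nat.prime_two h2; omega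
  have hcop : Nat.Coprime 2 n := (Nat.Prime.coprime_iff_not_dvd Nat.prime_two).2 h2n
  have h2m : 2 ∉ n.primeFactors := fun h' => h2n (Nat.dvd_of_mem_primeFactors h')
  rw [tau_eq (by norm_num) (by omega)]
  have h1 := sum_E_le (K := 24) (by norm_num) (show 1 < 2 * n by omega)
  have h2 := two_pow_le hl h hn hnp
  have h3 : (0 : ℝ) < n.totient := by exact_mod_cast Nat.totient_pos.2 (by omega)
  have h4 : (0 : ℝ) < ((l : ℝ) - 1) ^ 2 := by
    have : (0 : ℝ) < (l : ℝ) - 1 := by linarith
    positivity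
  have h5 : (2 * n).totient = n.totient := by
    rw [Nat.totient_mul hcop, Nat.totient_two, one_mul]
  have h6 : (2 * n).primeFactors.card = n.primeFactors.card + 1 := by
    rw [primeFactors_two_mul (by omega), Finset.card_insert_of_notMem h2m]
  rw [h6, pow_succ] at h1
  rw [h5]
  have h7 : (∑ T ∈ (2 * n).primeFactors.powerset, (-1) ^ T.card * E 24 (2 * n / ∏ p ∈ T, p)) / n.totient ≤
      4 / ((l : ℝ) - 1) ^ 2 := by
    rw [div_le_div_iff₀ h3 h4]
    calc (∑ T ∈ (2 * n).primeFactors.powerset, (-1) ^ T.card * E 24 (2 * n / ∏ p ∈ T, p)) * ((l : ℝ) - 1) ^ 2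
        ≤ (2 ^ n.primeFactors.card * 2 / 2) * ((l : ℝ) - 1) ^ 2 :=
          mul_le_mul_of_nonneg_right h1 h4.le
      _ ≤ 4 * n.totient := by linarith
  have h8 : (1 : ℝ) / ((24 : ℕ) : ℝ) = 1 / 24 := by norm_num
  rw [h8]
  linarith

lemma abs_bet_two_rough {l n : ℕ} (hl : 0 < l) (h : Rough l n) (hn : 1 < n) (hnp : ¬ n.Prime) :
    |bet (2 * n)| ≤ 1 / (12 * l ^ 2) := by
  refine (abs_bet_le (by omega)).trans ?_
  have hl' : (0 : ℝ) < l := by exact_mod_cast hl
  have h1 : ((l * l : ℕ) : ℝ) ≤ n := by exact_mod_cast h.sq_le hn hnp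
  push_cast at h1 ⊢
  exact one_div_le_one_div_of_le (by positivity) (by nlinarith)

/-- the cost of a difference of exponents -/
lemma cost_theta47 {d : ℕ} (hd : 0 < d) (h : Rough 47 d) :
    -2 * bet d + 1 / 12 * tau 24 d ≤ 91 / 10000 := by
  rcases Nat.lt_or_ge 1 d with h1 | h1
  · by_cases hp : d.Prime
    · have hdl : (47 : ℝ) ≤ d := by exact_mod_cast h.le h1
      have h2 := tau_prime (K := 24) (by norm_num) hp
      rw [bet_prime hp]
      push_cast at h2
      have h3 : -2 * (-1 / (6 * (d : ℝ))) + 1 / 12 * (1 / 24 + (24 / (4 * d) - (1 - 1 / 24)) / (d - 1))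
          ≤ 91 / 10000 := by
        have e1 : (0 : ℝ) < d := by linarith
        have e2 : (0 : ℝ) < (d : ℝ) - 1 := by linarith
        have e3 : 91 / 10000 - (-2 * (-1 / (6 * (d : ℝ))) + 1 / 12 * (1 / 24 + (24 / (4 * d) - (1 - 1 / 24)) / (d - 1)))
            = ((91 / 10000 - 1 / 288) * (d * (d - 1)) - (d - 1) / 3 - (6 - 23 / 24 * d) / 12) / (d * (d - 1)) := by
          field_simp
          ring
        have e4 : 0 ≤ ((91 / 10000 - 1 / 288) * ((d : ℝ) * (d - 1)) - (d - 1) / 3 - (6 - 23 / 24 * d) / 12) / (d * (d - 1)) := by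
          apply div_nonneg _ (by positivity)
          nlinarith
        linarith
      linarith
    · have h2 := abs_bet_rough (by norm_num) h h1 hp
      have h3 := tau_rough (K := 24) (by norm_num) (by norm_num) h h1 hp
      have h4 := (abs_le.1 h2).1
      norm_num at h3 h4 ⊢
      linarith
  · have h2 : d = 1 := by omega
    rw [h2, bet_one, tau_one (by norm_num)]
    norm_num

/-- the cost of half a sum of differences -/
lemma cost_sigma2 {n : ℕ} (hn : 0 < n) (h : Rough 47 n) :
    bet (2 * n) + 1 / 12 * tau 24 (2 * n) ≤ 55 / 10000 := by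
  rcases Nat.lt_or_ge 1 n with h1 | h1
  · by_cases hp : n.Prime
    · have hdl : (47 : ℝ) ≤ n := by exact_mod_cast h.le h1
      have hn2 : n ≠ 2 := by
        rintro rfl
        have := h 2 Nat.prime_two (dvd_refl 2)
        omega
      have h2 := tau_two_prime hp hn2
      rw [bet_two_prime hp hn2]
      have h3 : 1 / (12 * (n : ℝ)) + 1 / 12 * (1 / 24 + (3 / n + 1 / 24) / (n - 1)) ≤ 55 / 10000 := by
        have e1 : (0 : ℝ) < n := by linarith
        have e2 : (0 : ℝ) < (n : ℝ) - 1 := by linarith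
        have e3 : 55 / 10000 - (1 / (12 * (n : ℝ)) + 1 / 12 * (1 / 24 + (3 / n + 1 / 24) / (n - 1)))
            = ((55 / 10000 - 1 / 288) * (n * (n - 1)) - (n - 1) / 12 - (3 + n / 24) / 12) / (n * (n - 1)) := by
          field_simp
          ring
        have e4 : 0 ≤ ((55 / 10000 - 1 / 288) * ((n : ℝ) * (n - 1)) - (n - 1) / 12 - (3 + n / 24) / 12) / (n * (n - 1)) := by
          apply div_nonneg _ (by positivity)
          nlinarith
        linarith
      linarith
    · have h2 := abs_bet_two_rough (by norm_num) h h1 hp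
      have h3 := tau_two_rough (by norm_num) h h1 hp
      have h4 := (abs_le.1 h2).2
      norm_num at h3 h4 ⊢
      linarith
  · have h2 : n = 1 := by omega
    rw [h2, mul_one, bet_two, tau_two]
    norm_num

end Pool.Agent.R340.PC
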