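import Pool.Agent.R340.PC.Cost2
import Pool.Agent.R340.PC.Arith4

set_option autoImplicit false

/-!
Four numbers modulo an odd `q` such that all vectors with even coordinate sum which are congruent, up
to the signs of the coordinates, to a multiple by a unit, have norm greater than `q`.
-/

open Finset

namespace Pool.Agent.R340.PC

open Pool.Agent.W280.PC (Uni Phi Phi_neg sharp)
open Pool.Agent.TH295.PC

/-- All vectors with even sum in the classes of the multiples `c * D` have norm greater than `N`. -/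
def FarE (N : ℕ) (D : Fin 4 → ℤ) : Prop :=
  ∀ c : ℤ, IsCoprime c (N : ℤ) → ∀ s : Fin 4 → ℤ,
    (∀ i, (N : ℤ) ∣ s i - c * D i ∨ (N : ℤ) ∣ s i + c * D i) →
    (∀ i, (N : ℤ) ∣ D i → s i = 0) → Even (∑ i, s i) → (N : ℤ) < ∑ i, |s i|

section uni

variable {q : ℕ} {D : Fin 4 → ℤ}

/-- The inequalities used in the average. -/
lemma uni_of_farE (hq : Odd q) (hF : FarE q D) (ι : ℤ)
    (hι : Odd (-(D 0 + D 1 + D 2 + D 3) + q * ι)) (c : ℤ)
    (hc : IsCoprime c ((2 * q : ℕ) : ℤ)) :
    Uni (2 * q) (-(D 0 + D 1 + D 2 + D 3) + q * ι) (-(D 0 + D 1 + D 2 - D 3) + q * ι)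
      (2 * D 0) (2 * D 1) (2 * D 2) c := by
  have hq0 : (0 : ℤ) < q := by exact_mod_cast hq.pos
  have hMe : ((2 * q : ℕ) : ℤ) = 2 * q := by push_cast; ring
  have hN0 : (0 : ℤ) < ((2 * q : ℕ) : ℤ) := by rw [hMe]; linarith
  have hcq : IsCoprime c (q : ℤ) := IsCoprime.of_isCoprime_of_dvd_right hc ⟨2, by rw [hMe]; ring⟩
  have hcodd : Odd c := by
    rw [← Int.not_even_iff_odd, even_iff_two_dvd]
    intro h
    have h1 : IsCoprime c 2 := IsCoprime.of_isCoprime_of_dvd_right hc ⟨q, hMe⟩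
    have h2 := h1.isUnit_of_dvd' h dvd_rfl
    rw [Int.isUnit_iff] at h2
    omega
  obtain ⟨n1, hn1⟩ := id hq
  have hNe : (q : ℤ) = 2 * n1 + 1 := by exact_mod_cast hn1
  unfold Uni
  set a : ℤ := -(D 0 + D 1 + D 2 + D 3) + q * ι with ha
  set b : ℤ := -(D 0 + D 1 + D 2 - D 3) + q * ι with hb
  set M : ℤ := ((2 * q : ℕ) : ℤ) with hM
  set x : ℤ := (c * a) % M with hx
  set y : ℤ := (c * b) % M with hy
  set t1 : ℤ := (-(c * (2 * D 0))) % M with ht1
  set t2 : ℤ := (-(c * (2 * D 1))) % M with ht2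
  set t3 : ℤ := (-(c * (2 * D 2))) % M with ht3
  have hx0 := Int.emod_nonneg (c * a) hN0.ne'
  have hx1 := Int.emod_lt_of_pos (c * a) hN0
  have hy0 := Int.emod_nonneg (c * b) hN0.ne'
  have hy1 := Int.emod_lt_of_pos (c * b) hN0
  have h10 := Int.emod_nonneg (-(c * (2 * D 0))) hN0.ne'
  have h11 := Int.emod_lt_of_pos (-(c * (2 * D 0))) hN0
  have h20 := Int.emod_nonneg (-(c * (2 * D 1))) hN0.ne'
  have h21 := Int.emod_lt_of_pos (-(c * (2 * D 1))) hN0
  have h30 := Int.emod_nonneg (-(c * (2 * D 2))) hN0.ne'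
  have h31 := Int.emod_lt_of_pos (-(c * (2 * D 2))) hN0
  rw [← hx] at hx0 hx1
  rw [← hy] at hy0 hy1
  rw [← ht1] at h10 h11
  rw [← ht2] at h20 h21
  rw [← ht3] at h30 h31
  obtain ⟨qx, hqx⟩ : M ∣ c * a - x := Int.dvd_self_sub_emod
  obtain ⟨qy, hqy⟩ : M ∣ c * b - y := Int.dvd_self_sub_emod
  obtain ⟨q1, hq1⟩ : M ∣ -(c * (2 * D 0)) - t1 := Int.dvd_self_sub_emod
  obtain ⟨q2, hq2⟩ : M ∣ -(c * (2 * D 1)) - t2 := Int.dvd_self_sub_emod
  obtain ⟨q3, hq3⟩ : M ∣ -(c * (2 * D 2)) - t3 := Int.dvd_self_sub_emod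
  -- halves
  have hhalf : ∀ {t z k : ℤ}, -(c * (2 * z)) - t = M * k → t = 2 * (-(c * z) - q * k) := by
    intro t z k h
    rw [hMe] at h
    linear_combination -h
  obtain ⟨u1, hu1, hu1'⟩ : ∃ u1 : ℤ, t1 = 2 * u1 ∧ u1 = -(c * D 0) - q * q1 := ⟨_, hhalf hq1, rfl⟩
  obtain ⟨u2, hu2, hu2'⟩ : ∃ u2 : ℤ, t2 = 2 * u2 ∧ u2 = -(c * D 1) - q * q2 := ⟨_, hhalf hq2, rfl⟩
  obtain ⟨u3, hu3, hu3'⟩ : ∃ u3 : ℤ, t3 = 2 * u3 ∧ u3 = -(c * D 2) - q * q3 := ⟨_, hhalf hq3, rfl⟩
  have hxodd : Odd x := by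
    have h1 : x = c * a - 2 * (q * qx) := by
      rw [hMe] at hqx
      linear_combination -hqx
    rw [h1]
    exact (hcodd.mul hι).sub_even ⟨q * qx, by ring⟩
  obtain ⟨z4, hz4, hz4'⟩ : ∃ z : ℤ, x - y = 2 * z ∧ z = -(c * D 3) - q * (qx - qy) := by
    refine ⟨_, ?_, rfl⟩
    rw [hMe] at hqx hqy
    have e1 : c * a - c * b = -(c * (2 * D 3)) := by rw [ha, hb]; ring
    linear_combination e1 - hqx + hqy
  have hz : ∀ {u z k : ℤ}, 0 ≤ u → u < q → u = -(c * z) - q * k → (q : ℤ) ∣ z → u = 0 := by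
    intro u z k h0 h1 h hz
    obtain ⟨w, hw⟩ := hz
    have hdvd : (q : ℤ) ∣ u := ⟨-(c * w) - k, by rw [hw] at h; linear_combination h⟩
    exact Int.eq_zero_of_dvd_of_nonneg_of_lt h0 h1 hdvd
  have hu10 : 0 ≤ u1 := by omega
  have hu11 : u1 < q := by omega
  have hu20 : 0 ≤ u2 := by omega
  have hu21 : u2 < q := by omega
  have hu30 : 0 ≤ u3 := by omega
  have hu31 : u3 < q := by omega
  have hz40 : -q < z4 := by omega
  have hz41 : z4 < q := by omega
  have hz3 : (q : ℤ) ∣ D 3 → z4 = 0 := by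
    intro hd
    obtain ⟨w, hw⟩ := hd
    have h5 : (q : ℤ) ∣ z4 := ⟨-(c * w) - (qx - qy), by rw [hw] at hz4'; linear_combination hz4'⟩
    rcases le_total 0 z4 with h | h
    · exact Int.eq_zero_of_dvd_of_nonneg_of_lt h hz41 h5
    · have h6 : (q : ℤ) ∣ -z4 := (dvd_neg).2 h5
      have := Int.eq_zero_of_dvd_of_nonneg_of_lt (by linarith) (by linarith) h6
      linarith
  -- the sum
  obtain ⟨n, hn⟩ : M ∣ x + y - (t1 + t2 + t3) := by
    refine ⟨c * ι - qx - qy + q1 + q2 + q3, ?_⟩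
    have e1 : c * a + c * b = -(c * (2 * D 0)) - c * (2 * D 1) - c * (2 * D 2) + M * (c * ι) := by
      rw [ha, hb, hMe]; ring
    linear_combination e1 - hqx - hqy + hq1 + hq2 + hq3
  have hsum4 : ∀ p q r s : ℤ, ∑ i : Fin 4, (![p, q, r, s] : Fin 4 → ℤ) i = p + q + r + s := by
    intro p q r s
    simp [Fin.sum_univ_four]
  have habs4 : ∀ p q r s : ℤ, ∑ i : Fin 4, |(![p, q, r, s] : Fin 4 → ℤ) i| = |p| + |q| + |r| + |s| := by
    intro p q r s
    simp [Fin.sum_univ_four]
  have hmaxabs : |x - y| = 2 * max x y - x - y := by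
    rcases le_total x y with hxy | hxy
    · rw [max_eq_right hxy, abs_of_nonpos (by linarith)]; ring
    · rw [max_eq_left hxy, abs_of_nonneg (by linarith)]; ring
  have hz4abs : 2 * |z4| = 2 * max x y - x - y := by
    rw [← hmaxabs, hz4, abs_mul]
    norm_num
  have hmaxlt : max x y < M := max_lt hx1 hy1
  have hmax0 : 0 ≤ max x y := le_max_of_le_left hx0
  have hcong : ∀ {u z k l : ℤ}, u = -(c * z) - q * k →
      (q : ℤ) ∣ (u + q * l) - c * z ∨ (q : ℤ) ∣ (u + q * l) + c * z := by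
    intro u z k l h
    right
    exact ⟨l - k, by linear_combination h⟩
  have hcong4 : (q : ℤ) ∣ z4 - c * D 3 ∨ (q : ℤ) ∣ z4 + c * D 3 := by
    right
    exact ⟨-(qx - qy), by linear_combination hz4'⟩
  refine ⟨?_, ?_⟩
  · by_contra hlt
    push Not at hlt
    have hn0 : 0 < n := by
      have : 0 < M * n := by linarith
      exact (mul_pos_iff_of_pos_left hN0).1 this
    have hn2 : n < 2 := by
      by_contra hc2
      push Not at hc2
      have : M * 2 ≤ M * n := mul_le_mul_of_nonneg_left hc2 hN0.le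
      linarith
    have hn1' : n = 1 := by omega
    subst hn1'
    have := hF c hcq ![u1, u2, u3, z4] (by
      intro i
      fin_cases i
      · simpa using hcong (l := 0) hu1'
      · simpa using hcong (l := 0) hu2'
      · simpa using hcong (l := 0) hu3'
      · simpa using hcong4) (by
      intro i hi
      fin_cases i
      · exact hz hu10 hu11 hu1' hi
      · exact hz hu20 hu21 hu2' hi
      · exact hz hu30 hu31 hu3' hi
      · exact hz3 hi) (by
      rw [hsum4]
      have h1 : u1 + u2 + u3 + z4 = x - q := by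
        rw [hMe] at hn
        omega
      rw [h1]
      exact hxodd.sub_odd (by exact_mod_cast hq))
    rw [habs4, abs_of_nonneg hu10, abs_of_nonneg hu20, abs_of_nonneg hu30] at this
    omega
  · intro heq
    have key : ∀ (t u : ℤ) (s : Fin 4 → ℤ), t = 2 * u →
        (max x y < t → (∀ i, (q : ℤ) ∣ s i - c * D i ∨ (q : ℤ) ∣ s i + c * D i) ∧
          (∀ i, (q : ℤ) ∣ D i → s i = 0) ∧ ∑ i, s i = (u1 + u2 + u3) - q + z4 ∧
          ∑ i, |s i| = (u1 + u2 + u3) + q - 2 * u + |z4|) → t ≤ max x y := by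
      intro t u s htu hs
      by_contra hlt
      push Not at hlt
      obtain ⟨g1, g2, g3, g4⟩ := hs hlt
      have := hF c hcq s g1 g2 (by
        rw [g3]
        have h1 : u1 + u2 + u3 - q + z4 = x - q := by omega
        rw [h1]
        exact hxodd.sub_odd (by exact_mod_cast hq))
      rw [g4] at this
      omega
    refine ⟨?_, ?_, ?_⟩
    · refine key t1 u1 ![u1 - q, u2, u3, z4] hu1 fun hlt => ⟨?_, ?_, ?_, ?_⟩
      · intro i
        fin_cases i
        · simpa [sub_eq_add_neg] using hcong (l := -1) hu1'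
        · simpa using hcong (l := 0) hu2'
        · simpa using hcong (l := 0) hu3'
        · simpa using hcong4
      · intro i hi
        fin_cases i
        · exfalso
          have := hz hu10 hu11 hu1' hi
          omega
        · exact hz hu20 hu21 hu2' hi
        · exact hz hu30 hu31 hu3' hi
        · exact hz3 hi
      · rw [hsum4]; ring
      · rw [habs4, abs_of_nonneg hu20, abs_of_nonneg hu30, abs_of_nonpos (by linarith)]; ring
    · refine key t2 u2 ![u1, u2 - q, u3, z4] hu2 fun hlt => ⟨?_, ?_, ?_, ?_⟩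
      · intro i
        fin_cases i
        · simpa using hcong (l := 0) hu1'
        · simpa [sub_eq_add_neg] using hcong (l := -1) hu2'
        · simpa using hcong (l := 0) hu3'
        · simpa using hcong4
      · intro i hi
        fin_cases i
        · exact hz hu10 hu11 hu1' hi
        · exfalso
          have := hz hu20 hu21 hu2' hi
          omega
        · exact hz hu30 hu31 hu3' hi
        · exact hz3 hi
      · rw [hsum4]; ring
      · rw [habs4, abs_of_nonneg hu10, abs_of_nonneg hu30, abs_of_nonpos (show u2 - (q : ℤ) ≤ 0 by linarith)]; ring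
    · refine key t3 u3 ![u1, u2, u3 - q, z4] hu3 fun hlt => ⟨?_, ?_, ?_, ?_⟩
      · intro i
        fin_cases i
        · simpa using hcong (l := 0) hu1'
        · simpa using hcong (l := 0) hu2'
        · simpa [sub_eq_add_neg] using hcong (l := -1) hu3'
        · simpa using hcong4
      · intro i hi
        fin_cases i
        · exact hz hu10 hu11 hu1' hi
        · exact hz hu20 hu21 hu2' hi
        · exfalso
          have := hz hu30 hu31 hu3' hi
          omega
        · exact hz3 hi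
      · rw [hsum4]; ring
      · rw [habs4, abs_of_nonneg hu10, abs_of_nonneg hu20, abs_of_nonpos (show u3 - (q : ℤ) ≤ 0 by linarith)]; ring

end uni

end Pool.Agent.R340.PC
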