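import Pool.Agent.R340.PC.Even4

set_option autoImplicit false

/-!
The even case for numbers without small prime factors.
-/

namespace Pool.Agent.R340.PC

open Finset Pool.Agent.W280.PC Pool.Agent.TH295.PC

/-- The arithmetic theorem with general costs. -/
theorem arithC {D : ℕ} (hD : 1 < D) {a b r1 r2 r3 : ℤ} {C1 C2 : ℝ} (hC : 4 * C1 + 8 * C2 < 1 / 12)
    (hsum : (D : ℤ) ∣ a + b + r1 + r2 + r3) (ha : ¬ (D : ℤ) ∣ a) (hb : ¬ (D : ℤ) ∣ b)
    (hθ : ∀ z ∈ ({r1, r2, r3, a - b} : Set ℤ),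
      -2 * bet (D / Int.gcd z D) + 1 / 12 * tau 24 (D / Int.gcd z D) ≤ C1)
    (hσ : ∀ z ∈ ({a, a + r1, a + r2, a + r3, a + (r1 + r2), a + (r1 + r3), a + (r2 + r3),
      a + (r1 + r2 + r3)} : Set ℤ),
      bet (D / Int.gcd z D) + 1 / 12 * tau 24 (D / Int.gcd z D) ≤ C2)
    (hU : ∀ c : ℤ, IsCoprime c (D : ℤ) → Uni D a b r1 r2 r3 c) : False := by
  have hD0 : 0 < D := by omega
  have hDr : (0 : ℝ) < D := by exact_mod_cast hD0
  -- pointwise
  have hpt : ∀ c : ℤ, IsCoprime c (D : ℤ) → (Phi D (c * a) (c * b) (c * r1) (c * r2) (c * r3) : ℝ) ≤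
      -(2 * D ^ 2 * (1 - TS 24 D (c * a) (c * b) (c * r1) (c * r2) (c * r3)) / (24 : ℕ)) := by
    have main : ∀ c : ℤ, IsCoprime c (D : ℤ) →
        (-(c * r1)) % D + (-(c * r2)) % D + (-(c * r3)) % D = (c * a) % D + (c * b) % D →
        (Phi D (c * a) (c * b) (c * r1) (c * r2) (c * r3) : ℝ) ≤
      -(2 * D ^ 2 * (1 - TS 24 D (c * a) (c * b) (c * r1) (c * r2) (c * r3)) / (24 : ℕ)) := by
      intro c hc heq
      have hs : (D : ℤ) ∣ c * a + c * b + c * r1 + c * r2 + c * r3 := by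
        have : c * a + c * b + c * r1 + c * r2 + c * r3 = c * (a + b + r1 + r2 + r3) := by ring
        rw [this]; exact hsum.mul_left c
      obtain ⟨w1, w2, w3⟩ := (hU c hc).2 heq
      exact phi_le hD0 (by norm_num) hs heq w1 w2 w3
    intro c hc
    rcases sharp hD0 hc hsum ha hb (hU c hc) (hU (-c) hc.neg_left) with h | h
    · exact main c hc h
    · have := main (-c) hc.neg_left h
      simp only [neg_mul, Phi_neg hD0, TS_neg (show 2 ≤ 24 by norm_num)] at this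
      exact this
  -- the sum over the units
  have hPhi : ∀ c : ℕ, (Phi D (c * a) (c * b) (c * r1) (c * r2) (c * r3) : ℝ) = D ^ 2 *
      (2 * (B ((c : ℝ) * r1 / D) + B ((c : ℝ) * r2 / D) + B ((c : ℝ) * r3 / D) +
        B ((c : ℝ) * (a - b : ℤ) / D)) -
       (B ((c : ℝ) * a / D) + B ((c : ℝ) * (a + r1 : ℤ) / D) + B ((c : ℝ) * (a + r2 : ℤ) / D) +
        B ((c : ℝ) * (a + r3 : ℤ) / D) + B ((c : ℝ) * (a + (r1 + r2) : ℤ) / D) +
        B ((c : ℝ) * (a + (r1 + r3) : ℤ) / D) + B ((c : ℝ) * (a + (r2 + r3) : ℤ) / D) +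
        B ((c : ℝ) * (a + (r1 + r2 + r3) : ℤ) / D))) := by
    intro c
    unfold Phi
    push_cast
    simp only [Q_B hD0]
    push_cast
    simp only [mul_add, mul_sub]
    ring
  have hTS : ∀ c : ℕ, TS 24 D (c * a) (c * b) (c * r1) (c * r2) (c * r3) =
      (tent 24 ((c : ℝ) * r1 / D) + tent 24 ((c : ℝ) * r2 / D) + tent 24 ((c : ℝ) * r3 / D) +
        tent 24 ((c : ℝ) * (a - b : ℤ) / D)) +
       (tent 24 ((c : ℝ) * a / D) + tent 24 ((c : ℝ) * (a + r1 : ℤ) / D) +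
        tent 24 ((c : ℝ) * (a + r2 : ℤ) / D) +
        tent 24 ((c : ℝ) * (a + r3 : ℤ) / D) + tent 24 ((c : ℝ) * (a + (r1 + r2) : ℤ) / D) +
        tent 24 ((c : ℝ) * (a + (r1 + r3) : ℤ) / D) + tent 24 ((c : ℝ) * (a + (r2 + r3) : ℤ) / D) +
        tent 24 ((c : ℝ) * (a + (r1 + r2 + r3) : ℤ) / D)) := by
    intro c
    unfold TS
    push_cast
    simp only [mul_add, mul_sub]
    ring
  have hsumle : ∑ c ∈ U D, (Phi D (c * a) (c * b) (c * r1) (c * r2) (c * r3) : ℝ) ≤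
      ∑ c ∈ U D, (-(2 * D ^ 2 * (1 - TS 24 D (c * a) (c * b) (c * r1) (c * r2) (c * r3)) / (24 : ℕ))) := by
    apply Finset.sum_le_sum
    intro c hc
    rw [U, Finset.mem_filter] at hc
    exact hpt c (Nat.isCoprime_iff_coprime.2 hc.2.symm)
  simp only [hPhi, hTS] at hsumle
  rw [← Finset.mul_sum] at hsumle
  have hre : ∀ s : ℝ, -(2 * (D : ℝ) ^ 2 * (1 - s) / ((24 : ℕ) : ℝ)) = D ^ 2 * (-(1 / 12) + 1 / 12 * s) := by
    intro s; push_cast; ring
  simp only [hre] at hsumle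
  rw [← Finset.mul_sum] at hsumle
  have hle := le_of_mul_le_mul_left hsumle (by positivity)
  simp only [Finset.sum_sub_distrib, Finset.sum_add_distrib, ← Finset.mul_sum, Finset.sum_const,
    card_U, nsmul_eq_mul, orbit_B hD0, orbit_tent hD0] at hle
  have hphi : (0 : ℝ) < D.totient := by exact_mod_cast Nat.totient_pos.2 hD0
  -- costs
  have c1 := hθ r1 (by simp)
  have c2 := hθ r2 (by simp)
  have c3 := hθ r3 (by simp)
  have c4 := hθ (a - b) (by simp)
  have s1 := hσ a (by simp)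
  have s2 := hσ (a + r1) (by simp)
  have s3 := hσ (a + r2) (by simp)
  have s4 := hσ (a + r3) (by simp)
  have s5 := hσ (a + (r1 + r2)) (by simp)
  have s6 := hσ (a + (r1 + r3)) (by simp)
  have s7 := hσ (a + (r2 + r3)) (by simp)
  have s8 := hσ (a + (r1 + r2 + r3)) (by simp)
  have hfin : (D.totient : ℝ) * (1 / 12 - (4 * C1 + 8 * C2)) ≤ 0 := by
    have := mul_le_mul_of_nonneg_left c1 hphi.le
    have := mul_le_mul_of_nonneg_left c2 hphi.le
    have := mul_le_mul_of_nonneg_left c3 hphi.le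
    have := mul_le_mul_of_nonneg_left c4 hphi.le
    have := mul_le_mul_of_nonneg_left s1 hphi.le
    have := mul_le_mul_of_nonneg_left s2 hphi.le
    have := mul_le_mul_of_nonneg_left s3 hphi.le
    have := mul_le_mul_of_nonneg_left s4 hphi.le
    have := mul_le_mul_of_nonneg_left s5 hphi.le
    have := mul_le_mul_of_nonneg_left s6 hphi.le
    have := mul_le_mul_of_nonneg_left s7 hphi.le
    have := mul_le_mul_of_nonneg_left s8 hphi.le
    linarith
  nlinarith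

/-- the order of an even number modulo `2 q` -/
lemma order_even {q : ℕ} (z : ℤ) : 2 * q / Int.gcd (2 * z) ((2 * q : ℕ) : ℤ) = q / Int.gcd z q := by
  have h1 : Int.gcd (2 * z) ((2 * q : ℕ) : ℤ) = 2 * Int.gcd z q := by
    push_cast
    rw [Int.gcd_mul_left]
    rfl
  rw [h1]
  exact Nat.mul_div_mul_left _ _ (by norm_num)

/-- the order of an odd number modulo `2 q` -/
lemma order_odd {q : ℕ} {z : ℤ} (hz : Odd z) :
    2 * q / Int.gcd z ((2 * q : ℕ) : ℤ) = 2 * (q / Int.gcd z q) := by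
  have h2 : Nat.Coprime z.natAbs 2 := by
    rw [Nat.coprime_two_right]
    exact Int.natAbs_odd.2 hz
  have h1 : Int.gcd z ((2 * q : ℕ) : ℤ) = Int.gcd z q := by
    rw [Int.gcd_eq_natAbs, Int.gcd_eq_natAbs, Int.natAbs_natCast, Int.natAbs_natCast]
    exact Nat.Coprime.gcd_mul_left_cancel_right q h2.symm
  rw [h1]
  have h3 : Int.gcd z q ∣ q := by
    have : ((Int.gcd z q : ℕ) : ℤ) ∣ (q : ℤ) := Int.gcd_dvd_right _ _
    exact_mod_cast this
  exact Nat.mul_div_assoc 2 h3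

/-- **The even case is impossible** for numbers without prime factors below `47`. -/
theorem even_rough {q : ℕ} (hq1 : 1 < q) (hq : Odd q) (hR : Rough 47 q) {D : Fin 4 → ℤ}
    (hF : FarE q D) : False := by
  obtain ⟨ι, hι⟩ : ∃ ι : ℤ, Odd (-(D 0 + D 1 + D 2 + D 3) + q * ι) := by
    obtain ⟨n1, hn1⟩ := id hq
    have hqe : (q : ℤ) = 2 * n1 + 1 := by exact_mod_cast hn1
    refine ⟨(D 0 + D 1 + D 2 + D 3) + 1, ⟨n1 * ((D 0 + D 1 + D 2 + D 3) + 1), ?_⟩⟩
    rw [hqe]; ring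
  have hq0 : 0 < q := by omega
  have hMe : ((2 * q : ℕ) : ℤ) = 2 * q := by push_cast; ring
  set a : ℤ := -(D 0 + D 1 + D 2 + D 3) + q * ι with ha
  set b : ℤ := -(D 0 + D 1 + D 2 - D 3) + q * ι with hb
  have hbodd : Odd b := by
    have : b = a + 2 * D 3 := by rw [ha, hb]; ring
    rw [this]
    exact hι.add_even ⟨D 3, by ring⟩
  have hodd2 : ∀ {z : ℤ}, Odd z → ¬ ((2 * q : ℕ) : ℤ) ∣ z := by
    intro z hz h
    have h2 : (2 : ℤ) ∣ z := (Dvd.intro _ hMe.symm).trans h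
    rw [← even_iff_two_dvd] at h2
    exact (Int.not_even_iff_odd.2 hz) h2
  have hev : ∀ z : ℤ, -2 * bet (2 * q / Int.gcd (2 * z) ((2 * q : ℕ) : ℤ)) +
      1 / 12 * tau 24 (2 * q / Int.gcd (2 * z) ((2 * q : ℕ) : ℤ)) ≤ 91 / 10000 := by
    intro z
    rw [order_even]
    obtain ⟨h1, h2⟩ := div_gcd_dvd hq0 z
    exact cost_theta47 h2 (hR.dvd h1)
  have hod : ∀ z : ℤ, Odd z → bet (2 * q / Int.gcd z ((2 * q : ℕ) : ℤ)) +
      1 / 12 * tau 24 (2 * q / Int.gcd z ((2 * q : ℕ) : ℤ)) ≤ 55 / 10000 := by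
    intro z hz
    rw [order_odd hz]
    obtain ⟨h1, h2⟩ := div_gcd_dvd hq0 z
    exact cost_sigma2 h2 (hR.dvd h1)
  have hodd' : ∀ w : ℤ, Odd (a + 2 * w) := fun w => hι.add_even ⟨w, by ring⟩
  refine arithC (D := 2 * q) (a := a) (b := b) (r1 := 2 * D 0) (r2 := 2 * D 1) (r3 := 2 * D 2)
    (C1 := 91 / 10000) (C2 := 55 / 10000) (by omega) (by norm_num) ?_ (hodd2 hι) (hodd2 hbodd) ?_ ?_
    (fun c hc => uni_of_farE hq hF ι hι c hc)
  · refine ⟨ι, ?_⟩
    rw [hMe, ha, hb]; ring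
  · intro z hz
    simp only [Set.mem_insert_iff, Set.mem_singleton_iff] at hz
    rcases hz with rfl | rfl | rfl | rfl
    · exact hev _
    · exact hev _
    · exact hev _
    · have : a - b = 2 * (-D 3) := by rw [ha, hb]; ring
      rw [this]
      exact hev _
  · intro z hz
    simp only [Set.mem_insert_iff, Set.mem_singleton_iff] at hz
    rcases hz with rfl | rfl | rfl | rfl | rfl | rfl | rfl | rfl
    · exact hod _ hι
    · exact hod _ (hodd' _)
    · exact hod _ (hodd' _)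
    · exact hod _ (hodd' _)
    · rw [← mul_add]; exact hod _ (hodd' _)
    · rw [← mul_add]; exact hod _ (hodd' _)
    · rw [← mul_add]; exact hod _ (hodd' _)
    · rw [← mul_add, ← mul_add]; exact hod _ (hodd' _)

end Pool.Agent.R340.PC
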