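import Pool.Agent.R340.PC.EvenR

set_option autoImplicit false

/-!
The even case for small prime numbers.
-/

namespace Pool.Agent.R340.PC

open Finset

/-- The distance of `x` from the multiples of `p`. -/
def rr (p x : ℕ) : ℕ := bif Nat.ble (2 * (x % p)) p then x % p else p - x % p

/-- The multiplier `c` gives a vector with even sum and small norm. -/
def badc (p c e0 e1 e2 e3 : ℕ) : Bool :=
  let r0 := rr p (c * e0)
  let r1 := rr p (c * e1)
  let r2 := rr p (c * e2)
  let r3 := rr p (c * e3)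
  let s := r0 + r1 + r2 + r3
  bif Nat.beq (s % 2) 0 then Nat.ble s p else
    (Nat.ble s (2 * r0) || Nat.ble s (2 * r1) || Nat.ble s (2 * r2) || Nat.ble s (2 * r3))

/-- Some multiplier `1 ≤ c ≤ n` is bad. -/
def exc (p e1 e2 e3 : ℕ) : ℕ → Bool
  | 0 => false
  | n + 1 => badc p (n + 1) 1 e1 e2 e3 || exc p e1 e2 e3 n

/-- A Boolean function is true below `n`. -/
def allB (f : ℕ → Bool) : ℕ → Bool
  | 0 => true
  | n + 1 => f n && allB f n

/-- The check. -/
def chk (p : ℕ) : Bool :=
  allB (fun e1 => allB (fun e2 => allB (fun e3 => exc p e1 e2 e3 (p / 2)) (p / 2 + 1)) (p / 2 + 1))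
    (p / 2 + 1)

lemma allB_spec {f : ℕ → Bool} : ∀ {n : ℕ}, allB f n = true → ∀ k < n, f k = true := by
  intro n
  induction n with
  | zero => intro _ k hk; omega
  | succ n ih =>
    intro h k hk
    rw [allB, Bool.and_eq_true] at h
    rcases Nat.lt_succ_iff_lt_or_eq.1 hk with h1 | h1
    · exact ih h.2 k h1
    · rw [h1]; exact h.1

lemma exc_spec {p e1 e2 e3 : ℕ} : ∀ {n : ℕ}, exc p e1 e2 e3 n = true →
    ∃ c, 0 < c ∧ c ≤ n ∧ badc p c 1 e1 e2 e3 = true := by
  intro n
  induction n with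
  | zero => intro h; simp [exc] at h
  | succ n ih =>
    intro h
    rw [exc, Bool.or_eq_true] at h
    rcases h with h | h
    · exact ⟨n + 1, by omega, le_rfl, h⟩
    · obtain ⟨c, h1, h2, h3⟩ := ih h
      exact ⟨c, h1, by omega, h3⟩

lemma chk_spec {p : ℕ} (h : chk p = true) {e1 e2 e3 : ℕ} (h1 : e1 ≤ p / 2) (h2 : e2 ≤ p / 2)
    (h3 : e3 ≤ p / 2) : ∃ c, 0 < c ∧ c ≤ p / 2 ∧ badc p c 1 e1 e2 e3 = true := by
  have g1 := allB_spec h e1 (by omega)
  have g2 := allB_spec g1 e2 (by omega)
  have g3 := allB_spec g2 e3 (by omega)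
  exact exc_spec g3

lemma rr_spec {p : ℕ} (hp : 0 < p) (x : ℕ) :
    ((p : ℤ) ∣ (rr p x : ℤ) - x ∨ (p : ℤ) ∣ (rr p x : ℤ) + x) ∧ 2 * rr p x ≤ p := by
  have h1 : (p : ℤ) ∣ (x : ℤ) - (x % p : ℕ) := by
    have := Nat.mod_add_div x p
    refine ⟨(x / p : ℕ), ?_⟩
    have h2 : (x : ℤ) = ((x % p + p * (x / p) : ℕ) : ℤ) := by rw [this]
    rw [h2]
    push_cast
    ring
  have hlt := Nat.mod_lt x hp
  unfold rr
  cases h : Nat.ble (2 * (x % p)) p
  · have h2 : ¬ 2 * (x % p) ≤ p := fun h' => by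
      rw [Nat.ble_eq_true_of_le h'] at h; exact Bool.noConfusion h
    rw [cond_false]
    refine ⟨Or.inr ?_, by omega⟩
    rw [Nat.cast_sub hlt.le]
    obtain ⟨k, hk⟩ := h1
    exact ⟨k + 1, by linear_combination hk⟩
  · have h2 := Nat.le_of_ble_eq_true h
    rw [cond_true]
    refine ⟨Or.inl ?_, h2⟩
    obtain ⟨k, hk⟩ := h1
    exact ⟨-k, by linear_combination -hk⟩

lemma dvd_comb {p x y z : ℤ} (h1 : p ∣ x - y ∨ p ∣ x + y) (h2 : p ∣ y - z ∨ p ∣ y + z) :
    p ∣ x - z ∨ p ∣ x + z := by
  rcases h1 with h1 | h1 <;> rcases h2 with h2 | h2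
  · left; have := dvd_add h1 h2; rwa [show x - y + (y - z) = x - z by ring] at this
  · right; have := dvd_add h1 h2; rwa [show x - y + (y + z) = x + z by ring] at this
  · right; have := dvd_sub h1 h2; rwa [show x + y - (y - z) = x + z by ring] at this
  · left; have := dvd_sub h1 h2; rwa [show x + y - (y + z) = x - z by ring] at this

/-- The even case for a prime number passing the check. -/
theorem even_of_chk {p : ℕ} (hp : p.Prime) (hodd : Odd p) (hchk : chk p = true) {D : Fin 4 → ℤ}
    (hF : FarE p D) (hne : ∃ i, ¬ (p : ℤ) ∣ D i) : False := by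
  classical
  have hpp : Prime (p : ℤ) := Nat.prime_iff_prime_int.1 hp
  have hp0 : 0 < p := hp.pos
  have hp3 : 3 ≤ p := by
    have := hp.two_le
    rcases hodd with ⟨k, hk⟩
    omega
  -- without loss of generality the first number is prime to `p`
  suffices H : ∀ D : Fin 4 → ℤ, FarE p D → ¬ (p : ℤ) ∣ D 0 → False by
    obtain ⟨i0, hi0⟩ := hne
    refine H (fun i => D (Equiv.swap 0 i0 i)) ?_ (by simpa using hi0)
    intro c hc s hs hs0 hev
    have h1 := hF c hc (fun i => s (Equiv.swap 0 i0 i)) (fun i => ?_) (fun i hi => ?_) ?_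
    · rw [Equiv.sum_comp (Equiv.swap 0 i0) (fun i => |s i|)] at h1
      exact h1
    · have := hs (Equiv.swap 0 i0 i)
      simpa using this
    · refine hs0 _ ?_
      simpa using hi
    · rw [Equiv.sum_comp (Equiv.swap 0 i0) s]
      exact hev
  clear hF hne D
  intro D hF h0
  obtain ⟨u, v, huv⟩ : IsCoprime (D 0) (p : ℤ) := (hpp.coprime_iff_not_dvd.2 h0).symm
  have hu : IsCoprime u (p : ℤ) := ⟨D 0, v, by linear_combination huv⟩
  have hpz : (0 : ℤ) < p := by exact_mod_cast hp0
  let e : Fin 4 → ℕ := fun i => rr p (((u * D i) % p).toNat)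
  have hed : ∀ i, ((p : ℤ) ∣ (e i : ℤ) - u * D i ∨ (p : ℤ) ∣ (e i : ℤ) + u * D i) ∧ 2 * e i ≤ p := by
    intro i
    have h1 := rr_spec hp0 (((u * D i) % p).toNat)
    refine ⟨?_, h1.2⟩
    have h2 : ((((u * D i) % p).toNat : ℕ) : ℤ) = (u * D i) % p :=
      Int.toNat_of_nonneg (Int.emod_nonneg _ hpz.ne')
    refine dvd_comb (y := (u * D i) % p) ?_ (Or.inl ?_)
    · rw [← h2]; exact h1.1
    · rw [← neg_sub]
      exact (dvd_neg).2 Int.dvd_self_sub_emod
  have he0 : e 0 = 1 := by
    have h1 : (u * D 0) % p = 1 := by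
      have : u * D 0 = 1 + p * (-v) := by linear_combination huv
      rw [this, Int.add_mul_emod_self_left]
      exact Int.emod_eq_of_lt (by norm_num) (by omega)
    have h2 : e 0 = rr p 1 := by
      change rr p (((u * D 0) % p).toNat) = _
      rw [h1]; rfl
    rw [h2]
    unfold rr
    have h3 : 1 % p = 1 := Nat.mod_eq_of_lt (by omega)
    rw [h3, Nat.ble_eq_true_of_le (by omega : 2 * 1 ≤ p)]
    rfl
  obtain ⟨c, hc0, hc1, hbad⟩ := chk_spec hchk (e1 := e 1) (e2 := e 2) (e3 := e 3)
    (by have := (hed 1).2; omega) (by have := (hed 2).2; omega) (by have := (hed 3).2; omega)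
  have hcc : IsCoprime (c : ℤ) (p : ℤ) := by
    refine (hpp.coprime_iff_not_dvd.2 ?_).symm
    intro h
    have h1 : p ∣ c := by exact_mod_cast h
    have := Nat.le_of_dvd hc0 h1
    omega
  have hcu : IsCoprime ((c : ℤ) * u) (p : ℤ) := hcc.mul_left hu
  let r : Fin 4 → ℕ := fun i => rr p (c * e i)
  have hrd : ∀ i, ((p : ℤ) ∣ (r i : ℤ) - c * u * D i ∨ (p : ℤ) ∣ (r i : ℤ) + c * u * D i) ∧
      2 * r i ≤ p := by
    intro i
    have h1 := rr_spec hp0 (c * e i)
    refine ⟨?_, h1.2⟩
    refine dvd_comb (y := ((c * e i : ℕ) : ℤ)) h1.1 ?_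
    rcases (hed i).1 with h2 | h2
    · left
      have := h2.mul_left (c : ℤ)
      rwa [show (c : ℤ) * (e i - u * D i) = ((c * e i : ℕ) : ℤ) - c * u * D i by push_cast; ring] at this
    · right
      have := h2.mul_left (c : ℤ)
      rwa [show (c : ℤ) * (e i + u * D i) = ((c * e i : ℕ) : ℤ) + c * u * D i by push_cast; ring] at this
  have hr0 : ∀ i, (p : ℤ) ∣ D i → r i = 0 := by
    intro i hi
    have h1 : (p : ℤ) ∣ r i := by
      rcases (hrd i).1 with h | h
      · have := dvd_add h (hi.mul_left (c * u)); simpa using this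
      · have := dvd_sub h (hi.mul_left (c * u)); simpa using this
    have h2 : p ∣ r i := by exact_mod_cast h1
    by_contra h3
    have := Nat.le_of_dvd (Nat.pos_of_ne_zero h3) h2
    have := (hrd i).2
    omega
  -- the case of one changed coordinate
  have hchange : ∀ i0 : Fin 4, ¬ Even (∑ i, r i) → ∑ i, r i ≤ 2 * r i0 → False := by
    intro i0 hev hle
    have hr00 : r i0 ≠ 0 := by
      intro h
      rw [h] at hle
      have : ∑ i, r i = 0 := by omega
      rw [this] at hev
      exact hev (by simp)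
    have hsumZ : ∑ i, (r i : ℤ) = ((∑ i, r i : ℕ) : ℤ) := by push_cast; rfl
    have h1 := hF (c * u) hcu (fun i => (r i : ℤ) - if i = i0 then (p : ℤ) else 0) (by
      intro i
      by_cases h : i = i0
      · simp only [h, if_true]
        rcases (hrd i0).1 with h2 | h2
        · left
          have := dvd_sub h2 (dvd_refl (p : ℤ))
          rwa [show (r i0 : ℤ) - c * u * D i0 - p = r i0 - p - c * u * D i0 by ring] at this
        · right
          have := dvd_sub h2 (dvd_refl (p : ℤ))
          rwa [show (r i0 : ℤ) + c * u * D i0 - p = r i0 - p + c * u * D i0 by ring] at this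
      · simp only [h, if_false, sub_zero]
        exact (hrd i).1) (by
      intro i hi
      have h2 := hr0 i hi
      have h3 : i ≠ i0 := by rintro rfl; exact hr00 h2
      simp [h2, h3]) (by
      rw [Finset.sum_sub_distrib, Finset.sum_ite_eq' Finset.univ i0, if_pos (Finset.mem_univ _), hsumZ]
      have h2 : Odd (((∑ i, r i : ℕ) : ℤ)) := by
        have := Nat.not_even_iff_odd.1 hev
        exact_mod_cast this
      exact h2.sub_odd (by exact_mod_cast hodd))
    have h2 : ∀ i, |(r i : ℤ) - if i = i0 then (p : ℤ) else 0| =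
        r i + (if i = i0 then (p : ℤ) - 2 * r i0 else 0) := by
      intro i
      by_cases h : i = i0
      · simp only [h, if_true]
        have := (hrd i0).2
        rw [abs_of_nonpos (by omega)]
        ring
      · simp only [h, if_false, sub_zero, add_zero]
        exact abs_of_nonneg (by positivity)
    rw [Finset.sum_congr rfl fun i _ => h2 i, Finset.sum_add_distrib, Finset.sum_ite_eq' Finset.univ i0,
      if_pos (Finset.mem_univ _), hsumZ] at h1
    have h3 : ((∑ i, r i : ℕ) : ℤ) ≤ 2 * r i0 := by exact_mod_cast hle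
    linarith
  have hbad' : badc p c (e 0) (e 1) (e 2) (e 3) = true := by rw [he0]; exact hbad
  have hsum4 : ∑ i, r i = rr p (c * e 0) + rr p (c * e 1) + rr p (c * e 2) + rr p (c * e 3) :=
    Fin.sum_univ_four r
  unfold badc at hbad'
  simp only at hbad'
  rw [← hsum4] at hbad'
  by_cases hev : Even (∑ i, r i)
  · have h1 : Nat.beq ((∑ i, r i) % 2) 0 = true := by
      rw [Nat.even_iff.1 hev]; rfl
    rw [h1, cond_true] at hbad'
    have h2 := Nat.le_of_ble_eq_true hbad'
    have h3 := hF (c * u) hcu (fun i => (r i : ℤ)) (fun i => (hrd i).1) (fun i hi => by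
      rw [hr0 i hi]; rfl) (by
      have : ∑ i, (r i : ℤ) = ((∑ i, r i : ℕ) : ℤ) := by push_cast; rfl
      rw [this]
      exact_mod_cast hev)
    have h4 : ∑ i, |(r i : ℤ)| = ((∑ i, r i : ℕ) : ℤ) := by
      push_cast
      exact Finset.sum_congr rfl fun i _ => abs_of_nonneg (by positivity)
    rw [h4] at h3
    have h5 : p < ∑ i, r i := by exact_mod_cast h3
    omega
  · have h1 : Nat.beq ((∑ i, r i) % 2) 0 = false := by
      rw [Nat.odd_iff.1 (Nat.not_even_iff_odd.1 hev)]; rfl
    rw [h1, cond_false, Bool.or_eq_true, Bool.or_eq_true, Bool.or_eq_true] at hbad'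
    rcases hbad' with ((h | h) | h) | h
    · exact hchange 0 hev (Nat.le_of_ble_eq_true h)
    · exact hchange 1 hev (Nat.le_of_ble_eq_true h)
    · exact hchange 2 hev (Nat.le_of_ble_eq_true h)
    · exact hchange 3 hev (Nat.le_of_ble_eq_true h)

end Pool.Agent.R340.PC
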