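import Pool.Agent.R340.PC.EvenS

set_option autoImplicit false

/-!
The even case is impossible: all prime numbers `q ≥ 19`, and all `q` without prime factors below `47`.
-/

namespace Pool.Agent.R340.PC

theorem chk19 : chk 19 = true := by decide +kernel
theorem chk23 : chk 23 = true := by decide +kernel
theorem chk29 : chk 29 = true := by decide +kernel
theorem chk31 : chk 31 = true := by decide +kernel
theorem chk37 : chk 37 = true := by decide +kernel
theorem chk41 : chk 41 = true := by decide +kernel
theorem chk43 : chk 43 = true := by decide +kernel

/-- **The even case is impossible.** -/
theorem even_case {q : ℕ} (hq : Odd q) (hqq : (q.Prime ∧ 19 ≤ q) ∨ (1 < q ∧ ∀ p : ℕ, p.Prime → p ∣ q → 47 ≤ p))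
    {D : Fin 4 → ℤ} (hF : FarE q D) (hne : ∃ i, ¬ (q : ℤ) ∣ D i) : False := by
  rcases hqq with ⟨hp, h19⟩ | ⟨hq1, hR⟩
  · rcases Nat.lt_or_ge q 47 with h | h
    · have key : chk q = true := by
        interval_cases q
        · exact chk19
        · exact absurd hp (by norm_num)
        · exact absurd hp (by norm_num)
        · exact absurd hp (by norm_num)
        · exact chk23
        · exact absurd hp (by norm_num)
        · exact absurd hp (by norm_num)
        · exact absurd hp (by norm_num)
        · exact absurd hp (by norm_num)
        · exact absurd hp (by norm_num)
        · exact chk29
        · exact absurd hp (by norm_num)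
        · exact chk31
        · exact absurd hp (by norm_num)
        · exact absurd hp (by norm_num)
        · exact absurd hp (by norm_num)
        · exact absurd hp (by norm_num)
        · exact absurd hp (by norm_num)
        · exact chk37
        · exact absurd hp (by norm_num)
        · exact absurd hp (by norm_num)
        · exact absurd hp (by norm_num)
        · exact chk41
        · exact absurd hp (by norm_num)
        · exact chk43
        · exact absurd hp (by norm_num)
        · exact absurd hp (by norm_num)
        · exact absurd hp (by norm_num)
      exact even_of_chk hp hq key hF hne
    · refine even_rough hp.one_lt hq (fun p hpp hpq => ?_) hF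
      rw [(Nat.prime_dvd_prime_iff_eq hpp hp).1 hpq]
      exact h
  · exact even_rough hq1 hq hR hF

end Pool.Agent.R340.PC
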