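import Pool.Agent.R340.PC.Pair
import Pool.Agent.R340.PC.Arith4

set_option autoImplicit false

/-!
Four numbers modulo `N` with the property `Far` consist of two pairs.
-/

open Finset

namespace Pool.Agent.R340.PC

lemma primeOrRough_pair {N : ℕ} (hN1 : 1 < N) (hN : Odd N) (hPR : PrimeOrRough N) (D : Fin 4 → ℤ)
    (hD : ∀ i, ¬ (N : ℤ) ∣ D i)
    (hT : ∀ c : ℤ, IsCoprime c (N : ℤ) → ∑ i, sw N (c * D i) = 0) :
    ∃ i j, i ≠ j ∧ (N : ℤ) ∣ D i + D j := by
  rcases hPR with hp | hR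
  · exact pair_prime hp hN D hD hT
  · exact pair_rough hN1 hN (fun p hp hpN => (by norm_num : 11 ≤ 29).trans (hR p hp hpN)) D hD hT

lemma far_signs {N : ℕ} {D : Fin 4 → ℤ} (hF : Far N D) (κ : Fin 4 → ℤ)
    (hκ : ∀ i, κ i = 1 ∨ κ i = -1) : Far N (fun i => κ i * D i) := by
  intro c hc s hs hs0 hodd
  refine hF c hc s (fun i => ?_) (fun i hi => hs0 i (hi.mul_left _)) hodd
  have h1 := hs i
  rcases hκ i with h | h
  · simpa [h] using h1
  · rcases h1 with h1 | h1
    · right; simpa [h] using h1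
    · left; simpa [h, sub_eq_add_neg] using h1

/-- The resonant case: the sawtooth sums vanish. -/
lemma resonant {N : ℕ} (hN : Odd N) {D : Fin 4 → ℤ} (hF : Far N D)
    (hne : ∃ i, ¬ (N : ℤ) ∣ D i) (hsum : (N : ℤ) ∣ ∑ i, D i) :
    (∀ i, ¬ (N : ℤ) ∣ D i) ∧ ∀ c : ℤ, IsCoprime c (N : ℤ) → ∑ i, sw N (c * D i) = 0 := by
  classical
  have hN0 : (0 : ℤ) < N := by exact_mod_cast hN.pos
  -- the numbers of the residues
  have hT : ∀ c : ℤ, IsCoprime c (N : ℤ) → ∃ T : ℤ, ∑ i, (c * D i) % N = N * T ∧ 2 ≤ T := by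
    intro c hc
    have h0 : ∀ i, 0 ≤ (c * D i) % N := fun i => Int.emod_nonneg _ hN0.ne'
    have hd : ∀ i, (N : ℤ) ∣ (c * D i) % N - c * D i := fun i => by
      rw [← neg_sub]
      exact (dvd_neg).2 Int.dvd_self_sub_emod
    obtain ⟨T, hT⟩ : (N : ℤ) ∣ ∑ i, (c * D i) % N := by
      have h1 : (N : ℤ) ∣ ∑ i, ((c * D i) % N - c * D i) := dvd_sum fun i _ => hd i
      rw [sum_sub_distrib, ← mul_sum] at h1
      have := dvd_add h1 (hsum.mul_left c)
      simpa using this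
    refine ⟨T, hT, ?_⟩
    obtain ⟨i0, hi0⟩ := hne
    have h1 : ¬ (N : ℤ) ∣ c * D i0 := by
      intro h
      exact hi0 ((hc.symm).dvd_of_dvd_mul_left h)
    have h2 : 0 < (c * D i0) % N := by
      refine lt_of_le_of_ne (h0 i0) (fun h => h1 (Int.dvd_of_emod_eq_zero h.symm))
    have h3 : 0 < ∑ i, (c * D i) % N :=
      lt_of_lt_of_le h2 (single_le_sum (f := fun i => (c * D i) % N) (fun i _ => h0 i) (mem_univ i0))
    rw [hT] at h3
    have h4 : 0 < T := (mul_pos_iff_of_pos_left hN0).1 h3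
    have h5 : T ≠ 1 := by
      rintro rfl
      have h6 := hF c hc (fun i => (c * D i) % N) (fun i => Or.inl (hd i)) (fun i hi => by
        exact Int.emod_eq_zero_of_dvd (hi.mul_left c)) (by
        rw [hT, mul_one]
        exact_mod_cast hN)
      have h7 : ∑ i, |(c * D i) % (N : ℤ)| = ∑ i, (c * D i) % N :=
        sum_congr rfl fun i _ => abs_of_nonneg (h0 i)
      rw [h7, hT] at h6
      linarith
    omega
  -- the sum with the negative
  have hz : ∀ x : ℤ, x % N + (-x) % N = if (N : ℤ) ∣ x then 0 else (N : ℤ) := by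
    intro x
    split_ifs with h
    · rw [Int.emod_eq_zero_of_dvd h, Int.emod_eq_zero_of_dvd ((dvd_neg).2 h), add_zero]
    · have h0 := Int.emod_nonneg x hN0.ne'
      have h1 := Int.emod_lt_of_pos x hN0
      have h0' := Int.emod_nonneg (-x) hN0.ne'
      have h1' := Int.emod_lt_of_pos (-x) hN0
      have h2 : x % N ≠ 0 := fun h' => h (Int.dvd_of_emod_eq_zero h')
      obtain ⟨z, hz⟩ : (N : ℤ) ∣ x % N + (-x) % N := by
        have h3 : (N : ℤ) ∣ x - x % N := Int.dvd_self_sub_emod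
        have h4 : (N : ℤ) ∣ -x - (-x) % N := Int.dvd_self_sub_emod
        have h5 := (dvd_neg).2 (dvd_add h3 h4)
        have h6 : -(x - x % N + (-x - (-x) % N)) = x % N + (-x) % N := by ring
        rwa [h6] at h5
      have h7 : 0 < z := by
        have : 0 < (N : ℤ) * z := by rw [← hz]; omega
        exact (mul_pos_iff_of_pos_left hN0).1 this
      have h8 : z < 2 := by
        by_contra hc
        push Not at hc
        have : (N : ℤ) * 2 ≤ N * z := mul_le_mul_of_nonneg_left hc hN0.le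
        linarith
      have h9 : z = 1 := by omega
      rw [hz, h9, mul_one]
  have hkey : ∀ c : ℤ, IsCoprime c (N : ℤ) → (∀ i, ¬ (N : ℤ) ∣ c * D i) ∧
      ∑ i, (c * D i) % N = 2 * N := by
    intro c hc
    obtain ⟨T, hT1, hT2⟩ := hT c hc
    obtain ⟨T', hT1', hT2'⟩ := hT (-c) hc.neg_left
    have h1 : ∑ i, ((c * D i) % N + (-c * D i) % N) = N * T + N * T' := by
      rw [sum_add_distrib, hT1, hT1']
    have h2 : ∀ i ∈ univ, (c * D i) % N + (-c * D i) % N = if (N : ℤ) ∣ c * D i then 0 else (N : ℤ) := by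
      intro i _
      rw [← hz, neg_mul]
    rw [sum_congr rfl h2] at h1
    have h3 : (N : ℤ) * 4 ≤ N * (T + T') := mul_le_mul_of_nonneg_left (by omega) hN0.le
    have h5 : ∀ i, (if (N : ℤ) ∣ c * D i then 0 else (N : ℤ)) ≤ N := by
      intro i
      split_ifs
      · exact hN0.le
      · exact le_rfl
    rw [Fin.sum_univ_four] at h1
    have h50 := h5 0
    have h51 := h5 1
    have h52 := h5 2
    have h53 := h5 3
    refine ⟨?_, ?_⟩
    · intro i hi
      have h6 : (if (N : ℤ) ∣ c * D i then 0 else (N : ℤ)) = 0 := if_pos hi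
      fin_cases i
      · simp only [Fin.zero_eta] at h6
        rw [h6] at h1
        linarith
      · simp only [Fin.mk_one] at h6
        rw [h6] at h1
        linarith
      · have h7 : (if (N : ℤ) ∣ c * D 2 then 0 else (N : ℤ)) = 0 := h6
        rw [h7] at h1
        linarith
      · have h7 : (if (N : ℤ) ∣ c * D 3 then 0 else (N : ℤ)) = 0 := h6
        rw [h7] at h1
        linarith
    · have h6 : (N : ℤ) * T ≤ N * 2 := by
        have : (N : ℤ) * 2 ≤ N * T' := mul_le_mul_of_nonneg_left hT2' hN0.le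
        linarith
      have h7 : (N : ℤ) * 2 ≤ N * T := mul_le_mul_of_nonneg_left hT2 hN0.le
      rw [hT1]
      linarith
  refine ⟨fun i hi => (hkey 1 isCoprime_one_left).1 i (by rw [one_mul]; exact hi), ?_⟩
  intro c hc
  obtain ⟨h1, h2⟩ := hkey c hc
  have h3 : ∀ i ∈ univ, sw N (c * D i) = 2 * ((c * D i) % N) - N := by
    intro i _
    unfold sw
    rw [if_neg (h1 i)]
  rw [sum_congr rfl h3, sum_sub_distrib, ← mul_sum, h2]
  simp
  ring

/-- **Two pairs.** -/
theorem far_pairs {N : ℕ} (hN1 : 1 < N) (hN : Odd N) (hPR : PrimeOrRough N) {D : Fin 4 → ℤ}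
    (hF : Far N D) (hne : ∃ i, ¬ (N : ℤ) ∣ D i) :
    (∀ i, ¬ (N : ℤ) ∣ D i) ∧ ∃ π : Equiv.Perm (Fin 4),
      ((N : ℤ) ∣ D (π 0) - D (π 1) ∨ (N : ℤ) ∣ D (π 0) + D (π 1)) ∧
      ((N : ℤ) ∣ D (π 2) - D (π 3) ∨ (N : ℤ) ∣ D (π 2) + D (π 3)) := by
  classical
  by_cases hres : ∃ κ : Fin 4 → ℤ, (∀ i, κ i = 1 ∨ κ i = -1) ∧ (N : ℤ) ∣ ∑ i, κ i * D i
  · obtain ⟨κ, hκ, hsum⟩ := hres
    have hdvd : ∀ i, (N : ℤ) ∣ κ i * D i ↔ (N : ℤ) ∣ D i := by
      intro i
      rcases hκ i with h | h <;> simp [h]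
    obtain ⟨i0, hi0⟩ := hne
    obtain ⟨h1, h2⟩ := resonant hN (far_signs hF κ hκ) ⟨i0, fun h => hi0 ((hdvd i0).1 h)⟩ hsum
    obtain ⟨i, j, hij, hd⟩ := primeOrRough_pair hN1 hN hPR _ h1 h2
    refine ⟨fun i hi => h1 i ((hdvd i).2 hi), ?_⟩
    have hperm : ∀ i j : Fin 4, i ≠ j → ∃ π : Equiv.Perm (Fin 4), π 0 = i ∧ π 1 = j := by decide
    obtain ⟨π, h0, h1'⟩ := hperm i j hij
    have hsum' : (N : ℤ) ∣ κ (π 2) * D (π 2) + κ (π 3) * D (π 3) := by
      rw [← Equiv.sum_comp π, Fin.sum_univ_four, h0, h1'] at hsum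
      have := dvd_sub hsum hd
      have e : κ i * D i + κ j * D j + κ (π 2) * D (π 2) + κ (π 3) * D (π 3) - (κ i * D i + κ j * D j) =
        κ (π 2) * D (π 2) + κ (π 3) * D (π 3) := by ring
      rwa [e] at this
    have hpm : ∀ k l : Fin 4, (N : ℤ) ∣ κ k * D k + κ l * D l →
        ((N : ℤ) ∣ D k - D l ∨ (N : ℤ) ∣ D k + D l) := by
      intro k l h
      rcases hκ k with hk | hk <;> rcases hκ l with hl | hl <;> rw [hk, hl] at h
      · right; simpa using h
      · left; simpa [sub_eq_add_neg] using h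
      · left
        have := (dvd_neg).2 h
        have e : -(-1 * D k + 1 * D l) = D k - D l := by ring
        rwa [e] at this
      · right
        have := (dvd_neg).2 h
        have e : -(-1 * D k + -1 * D l) = D k + D l := by ring
        rwa [e] at this
    refine ⟨π, ?_, hpm _ _ hsum'⟩
    rw [h0, h1']
    exact hpm _ _ hd
  · push Not at hres
    exact (nonresonant hN1 hN hPR hF hres).elim

end Pool.Agent.R340.PC
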