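import Pool.Agent.R340.PC.Line

set_option autoImplicit false

/-!
Stable weights of rank two: the norms of the vectors of exponent differences with odd total shift
are greater than `1`.
-/

open Polynomial Finset

namespace Pool.Agent.R340.PC

open Pool.Agent.Y227.SS

lemma theta_le {δ κ v : ℝ} {n : ℤ} (hκ : κ = 1 ∨ κ = -1) (hδ : |δ| ≤ 1) (hv : v = κ * δ + n) :
    (if Odd n then 1 - |δ| else |δ|) ≤ |v| := by
  have h1 : |κ * δ| = |δ| := by
    rcases hκ with h | h <;> rw [h] <;> simp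
  have h2 : |(n : ℝ)| ≤ |v| + |δ| := by
    have : (n : ℝ) = v - κ * δ := by rw [hv]; ring
    rw [this, ← h1]
    exact abs_sub v (κ * δ)
  split_ifs with hn
  · have h3 : (1 : ℝ) ≤ |(n : ℝ)| := by
      have h4 : 1 ≤ |n| := Int.one_le_abs (by rintro rfl; simp at hn)
      exact_mod_cast h4
    linarith
  · by_cases h0 : n = 0
    · rw [hv, h0]
      simp [h1]
    · have h3 : (2 : ℝ) ≤ |(n : ℝ)| := by
        have h4 : 2 ≤ |n| := by
          rw [Int.not_odd_iff_even] at hn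
          obtain ⟨k, hk⟩ := hn
          have hk0 : k ≠ 0 := by rintro rfl; simp at hk; exact h0 hk
          have h5 : 1 ≤ |k| := Int.one_le_abs hk0
          rw [hk, ← two_mul, abs_mul]
          norm_num
          exact h5
        exact_mod_cast h4
      linarith

/-- **Vectors with odd total shift.** -/
theorem gen_vector {K : Type*} [Field K] {m : ℕ} {x : Fin m → Fin 2 → ℝ} {y : Fin 2 → ℝ}
    (hst : StableWeights K x y) (v : Fin m → ℝ) (t : ℝ) (n : Fin m → ℤ) (k F : ℤ)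
    (hv : ∀ j, v j = (x j 0 - x j 1) + n j) (ht : t = (y 0 - y 1) + k)
    (hF : ∑ j, (x j 0 + x j 1) = (y 0 + y 1) + F) (hodd : Odd (∑ j, n j + k + F)) :
    1 < ∑ j, |v j| + |t| := by
  classical
  obtain ⟨β, P, w, e, hβ, hP, hw, hwx, hey, hsum, -, hstab⟩ := hst
  choose σ hσ using hwx
  choose g hg using hσ
  obtain ⟨ρ, hρ⟩ := hey
  choose h hh using hρ
  have hperm : ∀ τ : Equiv.Perm (Fin 2), (τ 0 = 0 ∧ τ 1 = 1) ∨ (τ 0 = 1 ∧ τ 1 = 0) := by decide
  -- the signs
  have hδ : ∀ j, ∃ κ : ℤ, (κ = 1 ∨ κ = -1) ∧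
      v j = κ * (w j 0 - w j 1) + ((n j - κ * (g j 0 - g j 1) : ℤ) : ℝ) := by
    intro j
    rcases hperm (σ j) with ⟨h0, h1⟩ | ⟨h0, h1⟩
    · refine ⟨1, Or.inl rfl, ?_⟩
      rw [hg j 0, hg j 1, h0, h1, hv j]
      push_cast
      ring
    · refine ⟨-1, Or.inr rfl, ?_⟩
      rw [hg j 0, hg j 1, h0, h1, hv j]
      push_cast
      ring
  choose κ hκ hvκ using hδ
  obtain ⟨κ', hκ', htκ⟩ : ∃ κ : ℤ, (κ = 1 ∨ κ = -1) ∧
      t = κ * (e 0 - e 1) + ((k - κ * (h 0 - h 1) : ℤ) : ℝ) := by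
    rcases hperm ρ with ⟨h0, h1⟩ | ⟨h0, h1⟩
    · refine ⟨1, Or.inl rfl, ?_⟩
      rw [hh 0, hh 1, h0, h1, ht]
      push_cast
      ring
    · refine ⟨-1, Or.inr rfl, ?_⟩
      rw [hh 0, hh 1, h0, h1, ht]
      push_cast
      ring
  set n' : Fin m → ℤ := fun j => n j - κ j * (g j 0 - g j 1) with hn'
  set k' : ℤ := k - κ' * (h 0 - h 1) with hk'
  set S : Finset (Fin m) := univ.filter (fun j => Odd (n' j)) with hS
  have hpm : ∀ {κ a b : ℤ}, (κ = 1 ∨ κ = -1) → Even (κ * (a - b) + (a + b)) := by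
    intro κ a b hκ
    rcases hκ with rfl | rfl
    · exact ⟨a, by ring⟩
    · exact ⟨b, by ring⟩
  have hsum2 : ∑ j, (w j 0 + w j 1) = e 0 + e 1 := by
    simpa [Fin.sum_univ_two] using hsum
  -- parity
  have hFeq : F = (h 0 + h 1) - ∑ j, (g j 0 + g j 1) := by
    have h1 : ∀ j, w j 0 + w j 1 = (x j 0 + x j 1) + ((g j 0 + g j 1 : ℤ) : ℝ) := by
      intro j
      rcases hperm (σ j) with ⟨h0, h1⟩ | ⟨h0, h1⟩
      · rw [hg j 0, hg j 1, h0, h1]; push_cast; ring
      · rw [hg j 0, hg j 1, h0, h1]; push_cast; ring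
    have h2 : e 0 + e 1 = (y 0 + y 1) + ((h 0 + h 1 : ℤ) : ℝ) := by
      rcases hperm ρ with ⟨h0, h1⟩ | ⟨h0, h1⟩
      · rw [hh 0, hh 1, h0, h1]; push_cast; ring
      · rw [hh 0, hh 1, h0, h1]; push_cast; ring
    rw [sum_congr rfl fun j _ => h1 j, sum_add_distrib, hF, h2] at hsum2
    have h3 : ((∑ j, (g j 0 + g j 1) : ℤ) : ℝ) = ∑ j, ((g j 0 + g j 1 : ℤ) : ℝ) := by
      push_cast; rfl
    rw [← h3] at hsum2
    have h4 : (F : ℝ) = (((h 0 + h 1) - ∑ j, (g j 0 + g j 1) : ℤ) : ℝ) := by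
      push_cast
      push_cast at hsum2
      linarith
    exact_mod_cast h4
  have hpar : Odd ((S.card : ℤ) + k') := by
    have e1 : Even (∑ j, (n' j - (if j ∈ S then (1 : ℤ) else 0))) := by
      refine Finset.even_sum _ fun j _ => ?_
      by_cases hj : j ∈ S
      · rw [if_pos hj]
        exact (mem_filter.1 hj).2.sub_odd odd_one
      · rw [if_neg hj, sub_zero]
        rw [← Int.not_odd_iff_even]
        exact fun h' => hj (mem_filter.2 ⟨mem_univ _, h'⟩)
    have hcardS : ∑ j, (if j ∈ S then (1 : ℤ) else 0) = S.card := by simp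
    rw [sum_sub_distrib, hcardS] at e1
    have e2 : Even (∑ j, (κ j * (g j 0 - g j 1) + (g j 0 + g j 1))) :=
      Finset.even_sum _ fun j _ => hpm (hκ j)
    have e3 : Even (κ' * (h 0 - h 1) + (h 0 + h 1)) := hpm hκ'
    rw [sum_add_distrib] at e2
    have e4 : ∑ j, n' j = ∑ j, n j - ∑ j, κ j * (g j 0 - g j 1) := by
      rw [hn', sum_sub_distrib]
    obtain ⟨z1, hz1⟩ := e1
    obtain ⟨z2, hz2⟩ := e2
    obtain ⟨z3, hz3⟩ := e3
    obtain ⟨z4, hz4⟩ := hodd
    rw [Int.odd_iff]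
    generalize ∑ j, n' j = a1 at *
    generalize ∑ j, n j = a2 at *
    generalize ∑ j, κ j * (g j 0 - g j 1) = a3 at *
    generalize ∑ j, (g j 0 + g j 1) = a4 at *
    generalize κ' * (h 0 - h 1) = a5 at *
    omega
  obtain ⟨k1, hk1⟩ : ∃ k1 : ℤ, (S.card : ℤ) - 1 - κ' * k' = 2 * k1 := by
    obtain ⟨z, hz⟩ := hpar
    rcases hκ' with h' | h' <;> rw [h']
    · exact ⟨z - k', by linarith⟩
    · exact ⟨z, by linarith⟩
  set k0 : ℤ := (S.card : ℤ) - 1 - k1 with hk0
  have hineq := stable_ineq hw hstab S k0 k1 (by rw [hk0]; ring)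
  have hlhs : 2 * ∑ j, (if j ∈ S then max (w j 0) (w j 1) else min (w j 0) (w j 1)) =
      ∑ j, (w j 0 + w j 1) + S.card - ∑ j, (if Odd (n' j) then 1 - |w j 0 - w j 1| else |w j 0 - w j 1|) := by
    have hcardS : ∑ j, (if j ∈ S then (1 : ℝ) else 0) = S.card := by simp
    rw [← hcardS, mul_sum, ← sum_add_distrib, ← sum_sub_distrib]
    refine sum_congr rfl fun j _ => ?_
    by_cases hj : j ∈ S
    · have hj' : Odd (n' j) := (mem_filter.1 hj).2
      rw [if_pos hj, if_pos hj, if_pos hj']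
      rcases le_total (w j 0) (w j 1) with h | h
      · rw [max_eq_right h, abs_of_nonpos (by linarith)]; ring
      · rw [max_eq_left h, abs_of_nonneg (by linarith)]; ring
    · have hj' : ¬ Odd (n' j) := fun h' => hj (mem_filter.2 ⟨mem_univ _, h'⟩)
      rw [if_neg hj, if_neg hj, if_neg hj']
      rcases le_total (w j 0) (w j 1) with h | h
      · rw [min_eq_left h, abs_of_nonpos (by linarith)]; ring
      · rw [min_eq_right h, abs_of_nonneg (by linarith)]; ring
  have hmax : 2 * max ((k0 : ℝ) + e 0) (k1 + e 1) = (S.card - 1) + (e 0 + e 1) + |t| := by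
    have h1 : |t| = |(k0 + e 0) - (k1 + e 1)| := by
      have h2 : ((κ' * k' : ℤ) : ℝ) = k0 - k1 := by
        have h3 : κ' * k' = k0 - k1 := by rw [hk0]; linarith
        rw [h3]; push_cast; ring
      push_cast at h2
      have h3 : (k0 + e 0) - (k1 + e 1) = (κ' : ℝ) * t := by
        have h4 : (κ' : ℝ) * κ' = 1 := by
          rcases hκ' with h' | h' <;> rw [h'] <;> norm_num
        rw [htκ]
        linear_combination -h2 - (e 0 - e 1) * h4
      rw [h3, abs_mul]
      have h5 : |(κ' : ℝ)| = 1 := by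
        rcases hκ' with h' | h' <;> rw [h'] <;> norm_num
      rw [h5, one_mul]
    rw [h1]
    have h3 : 2 * max ((k0 : ℝ) + e 0) (k1 + e 1) =
        (k0 + e 0) + (k1 + e 1) + |(k0 + e 0) - (k1 + e 1)| := by
      rcases le_total ((k0 : ℝ) + e 0) (k1 + e 1) with h | h
      · rw [max_eq_right h, abs_of_nonpos (by linarith)]; ring
      · rw [max_eq_left h, abs_of_nonneg (by linarith)]; ring
    rw [h3]
    have h4 : (k0 : ℝ) = S.card - 1 - k1 := by rw [hk0]; push_cast; ring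
    rw [h4]
    ring
  have hle : ∑ j, (if Odd (n' j) then 1 - |w j 0 - w j 1| else |w j 0 - w j 1|) ≤ ∑ j, |v j| := by
    refine sum_le_sum fun j _ => ?_
    refine theta_le (κ := κ j) (n := n' j) ?_ ?_ (hvκ j)
    · rcases hκ j with h' | h' <;> rw [h'] <;> norm_num
    · rw [abs_le]
      have h1 := hw j 0
      have h2 := hw j 1
      constructor <;> linarith
  linarith

end Pool.Agent.R340.PC
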