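import Mathlib
import Pool.Agent.Y227.SS.Defs

set_option autoImplicit false

/-!
Line subbundles of parabolic bundles of rank two with prescribed flags, and the resulting
inequality for the weights of a stable bundle.
-/

open Polynomial Finset

namespace Pool.Agent.R340.PC

open Pool.Agent.Y227.SS

section line

variable {K : Type*} [Field K] {m : ℕ}

/-- A pair of polynomials of bounded degrees satisfying `S.card` linear conditions. -/
lemma exists_pair (d0 d1 : ℕ) (S : Finset (Fin m)) (hd : S.card < d0 + d1) (β : Fin m → K)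
    (A B : Fin m → K) :
    ∃ u0 u1 : K[X], (u0 ≠ 0 ∨ u1 ≠ 0) ∧ u0.degree < d0 ∧ u1.degree < d1 ∧
      ∀ j ∈ S, u0.eval (β j) * A j + u1.eval (β j) * B j = 0 := by
  classical
  let Φ : (degreeLT K d0 × degreeLT K d1) →ₗ[K] (S → K) :=
    { toFun := fun u j => (u.1 : K[X]).eval (β j) * A j + (u.2 : K[X]).eval (β j) * B j
      map_add' := by
        intro x y
        funext j
        simp only [Prod.fst_add, Prod.snd_add, Submodule.coe_add, eval_add, Pi.add_apply]
        ring
      map_smul' := by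
        intro c x
        funext j
        simp only [Prod.smul_fst, Prod.smul_snd, Submodule.coe_smul, eval_smul, smul_eq_mul,
          RingHom.id_apply, Pi.smul_apply]
        ring }
  have f0 : FiniteDimensional K (degreeLT K d0) :=
    (degreeLTEquiv K d0).symm.finiteDimensional
  have f1 : FiniteDimensional K (degreeLT K d1) :=
    (degreeLTEquiv K d1).symm.finiteDimensional
  have h0 : Module.finrank K (degreeLT K d0) = d0 := by
    rw [(degreeLTEquiv K d0).finrank_eq]; simp
  have h1 : Module.finrank K (degreeLT K d1) = d1 := by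
    rw [(degreeLTEquiv K d1).finrank_eq]; simp
  have hlt : Module.finrank K (S → K) < Module.finrank K (degreeLT K d0 × degreeLT K d1) := by
    rw [Module.finrank_prod, h0, h1, Module.finrank_fintype_fun_eq_card, Fintype.card_coe]
    exact hd
  have hker := LinearMap.ker_ne_bot_of_finrank_lt (f := Φ) hlt
  obtain ⟨u, hu, hne⟩ := (Submodule.ne_bot_iff _).1 hker
  refine ⟨u.1, u.2, ?_, mem_degreeLT.1 u.1.2, mem_degreeLT.1 u.2.2, ?_⟩
  · by_contra hcon
    push Not at hcon
    apply hne
    ext1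
    · exact Subtype.ext hcon.1
    · exact Subtype.ext hcon.2
  · intro j hj
    have := congrFun (LinearMap.mem_ker.1 hu) ⟨j, hj⟩
    exact this

/-- The same with integer bounds for the degrees. -/
lemma exists_pair' (k0 k1 : ℤ) (S : Finset (Fin m)) (hk : k0 + k1 = S.card - 1) (β : Fin m → K)
    (A B : Fin m → K) :
    ∃ u0 u1 : K[X], (u0 ≠ 0 ∨ u1 ≠ 0) ∧ (u0 ≠ 0 → (u0.natDegree : ℤ) ≤ k0) ∧
      (u1 ≠ 0 → (u1.natDegree : ℤ) ≤ k1) ∧
      ∀ j ∈ S, u0.eval (β j) * A j + u1.eval (β j) * B j = 0 := by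
  have key : ∀ d0 d1 : ℕ, S.card < d0 + d1 → ((d0 : ℤ) ≤ k0 + 1 ∨ d0 = 0) →
      ((d1 : ℤ) ≤ k1 + 1 ∨ d1 = 0) →
      ∃ u0 u1 : K[X], (u0 ≠ 0 ∨ u1 ≠ 0) ∧ (u0 ≠ 0 → (u0.natDegree : ℤ) ≤ k0) ∧
      (u1 ≠ 0 → (u1.natDegree : ℤ) ≤ k1) ∧
      ∀ j ∈ S, u0.eval (β j) * A j + u1.eval (β j) * B j = 0 := by
    intro d0 d1 hd h0 h1
    obtain ⟨u0, u1, hne, hu0, hu1, hS⟩ := exists_pair d0 d1 S hd β A B
    refine ⟨u0, u1, hne, fun h => ?_, fun h => ?_, hS⟩
    · have h2 := (natDegree_lt_iff_degree_lt h).2 hu0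
      rcases h0 with h0 | h0 <;> omega
    · have h2 := (natDegree_lt_iff_degree_lt h).2 hu1
      rcases h1 with h1 | h1 <;> omega
  by_cases h0 : k0 + 1 < 0
  · exact key 0 (S.card + 1) (by omega) (Or.inr rfl) (Or.inl (by push_cast; omega))
  by_cases h1 : k1 + 1 < 0
  · exact key (S.card + 1) 0 (by omega) (Or.inl (by push_cast; omega)) (Or.inr rfl)
  · exact key (k0 + 1).toNat (k1 + 1).toNat (by omega) (Or.inl (by omega)) (Or.inl (by omega))

lemma mnr_one {L : Type*} [CommRing L] (U : Matrix (Fin 1) (Fin 2) L[X]) (J : Fin 1 → Fin 2) :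
    mnr U J = U 0 (J 0) := by
  unfold mnr
  rw [Matrix.det_fin_one]
  rfl

/-- **The inequality of a stable bundle of rank two.** -/
theorem stable_ineq {β : Fin m → K} {P : Fin m → Matrix (Fin 2) (Fin 2) K}
    {w : Fin m → Fin 2 → ℝ} {e : Fin 2 → ℝ} (hw : ∀ j l, 0 ≤ w j l ∧ w j l ≤ 1)
    (hst : Stable β P w e) (S : Finset (Fin m)) (k0 k1 : ℤ) (hk : k0 + k1 = S.card - 1) :
    ∑ j, (if j ∈ S then max (w j 0) (w j 1) else min (w j 0) (w j 1)) <
      max (k0 + e 0) (k1 + e 1) := by
  classical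
  -- the index of the smaller weight
  let i : Fin m → Fin 2 := fun j => if w j 0 ≤ w j 1 then 0 else 1
  obtain ⟨u0, u1, hne, h0, h1, hS⟩ := exists_pair' k0 k1 S hk β (fun j => P j 0 (i j))
    (fun j => P j 1 (i j))
  let U : Matrix (Fin 1) (Fin 2) K[X] := fun _ => ![u0, u1]
  have hU0 : U 0 0 = u0 := rfl
  have hU1 : U 0 1 = u1 := rfl
  have hUne : ∃ J, mnr U J ≠ 0 := by
    rcases hne with h | h
    · exact ⟨fun _ => 0, by rw [mnr_one]; exact h⟩
    · exact ⟨fun _ => 1, by rw [mnr_one]; exact h⟩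
  have hent : ∀ j l, (U * (P j).map C) 0 l = u0 * C (P j 0 l) + u1 * C (P j 1 l) := by
    intro j l
    rw [Matrix.mul_apply, Fin.sum_univ_two, hU0, hU1, Matrix.map_apply, Matrix.map_apply]
  have hτ : ∀ j J, mnr (U * (P j).map C) J ≠ 0 →
      (if j ∈ S then max (w j 0) (w j 1) else min (w j 0) (w j 1)) ≤
        (mnr (U * (P j).map C) J).rootMultiplicity (β j) + ∑ t : Fin 1, w j (J t) := by
    intro j J hJ
    rw [mnr_one] at hJ ⊢
    rw [Fin.sum_univ_one]
    have hr0 : (0 : ℝ) ≤ ((U * (P j).map C) 0 (J 0)).rootMultiplicity (β j) := Nat.cast_nonneg _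
    have hmin : min (w j 0) (w j 1) ≤ w j (J 0) := by
      rcases Fin.exists_fin_two.1 ⟨J 0, rfl⟩ with h | h
      · rw [h]; exact min_le_left _ _
      · rw [h]; exact min_le_right _ _
    split_ifs with hjS
    · by_cases hJi : J 0 = i j
      · have hroot : 1 ≤ ((U * (P j).map C) 0 (J 0)).rootMultiplicity (β j) := by
          rw [Nat.one_le_iff_ne_zero, ← pos_iff_ne_zero, rootMultiplicity_pos hJ, IsRoot.def, hJi,
            hent]
          have := hS j hjS
          simp only [eval_add, eval_mul, eval_C]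
          exact this
        have hroot' : (1 : ℝ) ≤ ((U * (P j).map C) 0 (J 0)).rootMultiplicity (β j) := by
          exact_mod_cast hroot
        have hm : max (w j 0) (w j 1) ≤ 1 := max_le (hw j 0).2 (hw j 1).2
        have := (hw j (J 0)).1
        linarith
      · have hmax : max (w j 0) (w j 1) ≤ w j (J 0) := by
          by_cases h01 : w j 0 ≤ w j 1
          · have hi : i j = 0 := if_pos h01
            have hJ1 : J 0 = 1 := by
              rw [hi] at hJi
              have := (J 0).2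
              ext
              have h2 : (J 0 : ℕ) ≠ 0 := fun h => hJi (Fin.ext h)
              simp only [Fin.val_one]
              omega
            rw [hJ1, max_eq_right h01]
          · have hi : i j = 1 := if_neg h01
            have hJ1 : J 0 = 0 := by
              rw [hi] at hJi
              have := (J 0).2
              ext
              have h2 : (J 0 : ℕ) ≠ 1 := fun h => hJi (Fin.ext h)
              simp only [Fin.val_zero]
              omega
            rw [hJ1, max_eq_left (not_le.1 h01).le]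
        linarith
    · linarith
  obtain ⟨J, hJ, hlt⟩ := hst 1 one_pos one_lt_two U hUne _ hτ
  rw [mnr_one] at hJ hlt
  rw [Fin.sum_univ_one] at hlt
  refine lt_of_lt_of_le hlt ?_
  rcases Fin.exists_fin_two.1 ⟨J 0, rfl⟩ with h | h
  · rw [h] at hJ ⊢
    refine le_max_of_le_left ?_
    have h2 : ((u0.natDegree : ℤ) : ℝ) ≤ k0 := by exact_mod_cast h0 hJ
    rw [hU0]
    push_cast at h2
    linarith
  · rw [h] at hJ ⊢
    refine le_max_of_le_right ?_
    have h2 : ((u1.natDegree : ℤ) : ℝ) ≤ k1 := by exact_mod_cast h1 hJ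
    rw [hU1]
    push_cast at h2
    linarith

end line

end Pool.Agent.R340.PC
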