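import Pool.Agent.R340.PC.Res

set_option autoImplicit false

/-!
Four numbers modulo `N` such that the sum of the sawtooth functions of all multiples by units
vanishes: two of them are opposite, when `N` is a prime number or has no prime factor below `11`.
-/

open Finset

namespace Pool.Agent.R340.PC

open Pool.Agent.H916R2 (saw SS exists_SS_ne_zero saw_zero)

/-- A choice avoiding finitely many conditions. -/
lemma exists_avoid {ι : Type*} [Fintype ι] (B : ι → ℕ → Prop) (p : ℕ)
    (hB : ∀ x k k', k < p → k' < p → B x k → B x k' → k = k') (hc : Fintype.card ι < p) :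
    ∃ k < p, ∀ x, ¬ B x k := by
  classical
  by_contra hcon
  push Not at hcon
  choose f hf using hcon
  let F : Fin p → ι := fun k => f k k.2
  have hinj : Function.Injective F := by
    intro k k' hkk
    have h1 := hf k k.2
    have h2 := hf k' k'.2
    have h3 : f k k.2 = f k' k'.2 := hkk
    rw [← h3] at h2
    exact Fin.ext (hB _ _ _ k.2 k'.2 h1 h2)
  have := Fintype.card_le_of_injective F hinj
  rw [Fintype.card_fin] at this
  omega

lemma SS_zero {n : ℕ} [NeZero n] (χ : DirichletCharacter ℂ n) : SS χ 0 = 0 := by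
  unfold SS
  refine sum_eq_zero fun t _ => ?_
  rw [mul_zero, saw_zero]
  simp

lemma SS_one_ne {n : ℕ} [NeZero n] (χ : DirichletCharacter ℂ n) (a : (ZMod n)ˣ)
    (ha : SS χ a ≠ 0) : SS χ 1 ≠ 0 := by
  intro h
  apply ha
  have := SS_unit χ a 1
  rw [mul_one, h, mul_zero] at this
  exact this

/-- The prime case. -/
theorem pair_prime {N : ℕ} (hp : N.Prime) (hN : Odd N) (D : Fin 4 → ℤ)
    (hD : ∀ i, ¬ (N : ℤ) ∣ D i)
    (hT : ∀ c : ℤ, IsCoprime c (N : ℤ) → ∑ i, sw N (c * D i) = 0) :
    ∃ i j, i ≠ j ∧ (N : ℤ) ∣ D i + D j := by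
  classical
  have : NeZero N := ⟨hp.ne_zero⟩
  have : Fact N.Prime := ⟨hp⟩
  have hcop : ∀ i, IsCoprime (D i) (N : ℤ) := fun i =>
    ((Nat.prime_iff_prime_int.1 hp).coprime_iff_not_dvd.2 (hD i)).symm
  have hcore := core (n := N) (N := N) (g := 1) (by rw [mul_one]) one_pos D hT univ D
    (fun i _ => ⟨by push_cast; ring, hcop i⟩) ∅ (fun _ => 1) (by simp) (by simp) (by
      intro χ hχ
      right
      obtain ⟨a, ha⟩ := exists_SS_ne_zero χ hχ
      have ha0 : a ≠ 0 := by
        rintro rfl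
        exact ha (SS_zero χ)
      obtain ⟨u, hu⟩ := (isUnit_iff_ne_zero.2 ha0)
      rw [← hu] at ha
      exact SS_one_ne χ u ha) 0 (mem_univ _) (by
      intro S hS hne
      exact absurd (subset_empty.1 hS) (nonempty_iff_ne_empty.1 hne))
  have h0 : (0 : Fin 4) ∈ univ.filter (fun i => (N : ℤ) ∣ D i - D 0) :=
    mem_filter.2 ⟨mem_univ _, by simp⟩
  have h1 : 0 < (univ.filter (fun i => (N : ℤ) ∣ D i + D 0)).card := by
    rw [← hcore]
    exact card_pos.2 ⟨0, h0⟩
  obtain ⟨i, hi⟩ := card_pos.1 h1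
  have hi' := (mem_filter.1 hi).2
  refine ⟨i, 0, ?_, hi'⟩
  rintro rfl
  apply hD 0
  have h2 : (N : ℤ) ∣ 2 * D 0 := by rw [two_mul]; exact hi'
  have h3 : IsCoprime (N : ℤ) 2 := by
    have := (Nat.coprime_two_right).2 hN
    exact_mod_cast this.isCoprime
  exact h3.dvd_of_dvd_mul_left h2

/-- The case without small prime factors. -/
theorem pair_rough {N : ℕ} (hN1 : 1 < N) (hN : Odd N) (hR : ∀ p : ℕ, p.Prime → p ∣ N → 11 ≤ p)
    (D : Fin 4 → ℤ) (hD : ∀ i, ¬ (N : ℤ) ∣ D i)
    (hT : ∀ c : ℤ, IsCoprime c (N : ℤ) → ∑ i, sw N (c * D i) = 0) :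
    ∃ i j, i ≠ j ∧ (N : ℤ) ∣ D i + D j := by
  classical
  have hN0 : 0 < N := by omega
  -- the orders
  let G : Fin 4 → ℕ := fun i => Int.gcd N (D i)
  have hGN : ∀ i, G i ∣ N := fun i => by
    have := Int.gcd_dvd_natAbs_left N (D i)
    simpa using this
  have hG0 : ∀ i, 0 < G i := fun i => Nat.pos_of_dvd_of_pos (hGN i) hN0
  let o : Fin 4 → ℕ := fun i => N / G i
  have ho : ∀ i, N = o i * G i := fun i => (Nat.div_mul_cancel (hGN i)).symm
  obtain ⟨j, -, hj⟩ := exists_max_image univ o ⟨0, mem_univ _⟩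
  set n := o j with hn
  set g := G j with hg
  have hNng : N = n * g := ho j
  have hg0 : 0 < g := hG0 j
  have hn0 : 0 < n := Nat.pos_of_ne_zero (by rintro h; rw [h, zero_mul] at hNng; omega)
  have : NeZero n := ⟨hn0.ne'⟩
  have : NeZero N := ⟨hN0.ne'⟩
  have ho0 : ∀ i, 0 < o i := fun i => Nat.pos_of_ne_zero (by
    intro h; have := ho i; rw [h, zero_mul] at this; omega)
  set A : Finset (Fin 4) := univ.filter (fun i => n ∣ o i) with hA
  have hAo : ∀ i ∈ A, G i = g := by
    intro i hi
    have h1 : n ∣ o i := (mem_filter.1 hi).2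
    have h2 : n = o i := le_antisymm (Nat.le_of_dvd (ho0 i) h1) (hj i (mem_univ _))
    have h3 := ho i
    rw [← h2, hNng] at h3
    exact (Nat.eq_of_mul_eq_mul_left hn0 h3).symm
  let e : Fin 4 → ℤ := fun i => D i / g
  have he : ∀ i ∈ A, D i = g * e i ∧ IsCoprime (e i) (n : ℤ) := by
    intro i hi
    have hgi := hAo i hi
    have h1 : (g : ℤ) ∣ D i := by rw [← hgi]; exact Int.gcd_dvd_right _ _
    refine ⟨(Int.mul_ediv_cancel' h1).symm, ?_⟩
    have h2 := Int.isCoprime_iff_gcd_eq_one.2 (Int.gcd_ediv_gcd_ediv_gcd (i := (N : ℤ)) (j := D i)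
      (by change 0 < G i; exact hG0 i))
    have h3 : (Int.gcd N (D i) : ℤ) = g := by exact_mod_cast hgi
    rw [h3] at h2
    have h4 : (N : ℤ) / g = n := by
      rw [hNng]; push_cast
      exact Int.mul_ediv_cancel _ (by exact_mod_cast hg0.ne')
    rw [h4] at h2
    exact h2.symm
  -- the subgroups
  set P := n.primeFactors with hP
  have hnN : n ∣ N := ⟨g, hNng⟩
  let v : ℕ → ℕ := fun p => n.factorization p
  let M : ℕ → ℕ := fun p => N / p ^ N.factorization p
  let L : ℕ → ℤ := fun p => (p : ℤ) ^ (v p - 1) * M p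
  have hpp : ∀ p ∈ P, p.Prime := fun p hp => Nat.prime_of_mem_primeFactors hp
  have hpn : ∀ p ∈ P, p ∣ n := fun p hp => Nat.dvd_of_mem_primeFactors hp
  have hv1 : ∀ p ∈ P, 1 ≤ v p := fun p hp =>
    ((hpp p hp).factorization_pos_of_dvd hn0.ne' (hpn p hp))
  have hNM : ∀ p, N = p ^ N.factorization p * M p := fun p =>
    (Nat.ordProj_mul_ordCompl_eq_self N p).symm
  have hpM : ∀ p ∈ P, ¬ (p : ℤ) ∣ M p := by
    intro p hp h
    have h1 : p ∣ M p := by exact_mod_cast h
    exact Nat.not_dvd_ordCompl (hpp p hp) hN0.ne' h1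
  have hvn : ∀ p : ℕ, ((p : ℤ) ^ v p) ∣ n := by
    intro p
    exact_mod_cast Nat.ordProj_dvd n p
  have hF1 : ∀ p ∈ P, ∀ q ∈ P, q ≠ p → ((p : ℤ) ^ v p) ∣ L q := by
    intro p hp q hq hqp
    refine dvd_mul_of_dvd_right ?_ _
    have h1 : p ^ v p ∣ p ^ N.factorization p :=
      pow_dvd_pow p ((Nat.factorization_le_iff_dvd hn0.ne' hN0.ne').2 hnN p)
    have h2 : p ^ N.factorization p ∣ q ^ N.factorization q * M q := by
      rw [← hNM q]; exact Nat.ordProj_dvd N p
    have h3 : Nat.Coprime (p ^ N.factorization p) (q ^ N.factorization q) :=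
      Nat.Coprime.pow _ _ ((Nat.coprime_primes (hpp p hp) (hpp q hq)).2 (Ne.symm hqp))
    exact_mod_cast h1.trans (h3.dvd_of_dvd_mul_left h2)
  have hF3 : ∀ p ∈ P, (n : ℤ) ∣ p * L p := by
    intro p hp
    have h1 : (p : ℤ) * L p = ((p ^ v p * M p : ℕ) : ℤ) := by
      push_cast
      have h2 : v p = (v p - 1) + 1 := by have := hv1 p hp; omega
      conv_rhs => rw [h2, pow_succ]
      change (p : ℤ) * ((p : ℤ) ^ (v p - 1) * M p) = _
      ring
    rw [h1]
    have h3 : n / p ^ n.factorization p ∣ M p := Nat.ordCompl_dvd_ordCompl_of_dvd hnN p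
    have h4 : n ∣ p ^ v p * M p := by
      conv_lhs => rw [← Nat.ordProj_mul_ordCompl_eq_self n p]
      exact mul_dvd_mul_left _ h3
    exact_mod_cast h4
  have hF4 : ∀ i, i ∉ A → ∃ p ∈ P, (N : ℤ) ∣ L p * D i := by
    intro i hi
    have h1 : ¬ n ∣ o i := fun h => hi (mem_filter.2 ⟨mem_univ _, h⟩)
    have h2 : ∃ p : ℕ, p.Prime ∧ (o i).factorization p < n.factorization p := by
      by_contra hcon
      push Not at hcon
      exact h1 ((Nat.factorization_prime_le_iff_dvd hn0.ne' (ho0 i).ne').1 hcon)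
    obtain ⟨p, hp, hlt⟩ := h2
    have hpP : p ∈ P := by
      rw [hP, Nat.mem_primeFactors]
      refine ⟨hp, ?_, hn0.ne'⟩
      by_contra h3
      rw [Nat.factorization_eq_zero_of_not_dvd h3] at hlt
      omega
    refine ⟨p, hpP, ?_⟩
    have h3 : o i ∣ p ^ (v p - 1) * M p := by
      conv_lhs => rw [← Nat.ordProj_mul_ordCompl_eq_self (o i) p]
      refine mul_dvd_mul (pow_dvd_pow p ?_) (Nat.ordCompl_dvd_ordCompl_of_dvd ⟨G i, ho i⟩ p)
      change _ ≤ n.factorization p - 1
      omega
    have h4 : (G i : ℤ) ∣ D i := Int.gcd_dvd_right _ _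
    have h5 : ((o i : ℤ) * G i) ∣ L p * D i := by
      refine mul_dvd_mul ?_ h4
      change (o i : ℤ) ∣ (p : ℤ) ^ (v p - 1) * M p
      exact_mod_cast h3
    have h6 : (N : ℤ) = (o i : ℤ) * G i := by exact_mod_cast ho i
    rw [h6]
    exact h5
  have hejn : IsCoprime (e j) (n : ℤ) := (he j (mem_filter.2 ⟨mem_univ _, dvd_rfl⟩)).2
  -- the choice of the multipliers
  have hch : ∀ p ∈ P, ∃ k : ℕ, ¬ (p : ℤ) ∣ 1 + k * L p ∧
      ∀ i ∈ A, ¬ (p : ℤ) ^ v p ∣ (1 + k * L p) * e i - e j ∧
        ¬ (p : ℤ) ^ v p ∣ (1 + k * L p) * e i + e j := by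
    intro p hp
    have hppz : Prime (p : ℤ) := Nat.prime_iff_prime_int.1 (hpp p hp)
    have hp11 : 11 ≤ p := hR p (hpp p hp) ((hpn p hp).trans hnN)
    let B : Option (Fin 4 × Bool) → ℕ → Prop := fun x k =>
      match x with
      | none => (p : ℤ) ∣ 1 + k * L p
      | some (i, true) => i ∈ A ∧ (p : ℤ) ^ v p ∣ (1 + k * L p) * e i - e j
      | some (i, false) => i ∈ A ∧ (p : ℤ) ^ v p ∣ (1 + k * L p) * e i + e j
    have hkk : ∀ k k' : ℕ, k < p → k' < p → (p : ℤ) ∣ (k : ℤ) - k' → k = k' := by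
      intro k k' hk hk' hdvd
      obtain ⟨z, hz⟩ := hdvd
      have h1 : (0 : ℤ) < p := by omega
      have hz0 : z = 0 := by
        by_contra hne
        have h2 : (p : ℤ) ≤ p * |z| := by
          have h3 : 1 ≤ |z| := Int.one_le_abs hne
          nlinarith
        have h3 : (p : ℤ) * |z| = |(k : ℤ) - k'| := by
          rw [hz, abs_mul, abs_of_pos h1]
        have h4 : |(k : ℤ) - k'| < p := by rw [abs_lt]; constructor <;> omega
        omega
      rw [hz0, mul_zero] at hz
      omega
    have hei : ∀ i ∈ A, ¬ (p : ℤ) ∣ e i := by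
      intro i hi h
      have h1 : (p : ℤ) ∣ n := by exact_mod_cast hpn p hp
      exact hppz.not_isUnit ((he i hi).2.isUnit_of_dvd' h h1)
    have hcancel : ∀ (k k' : ℕ) (i : Fin 4), i ∈ A →
        (p : ℤ) ^ v p ∣ ((k : ℤ) - k') * L p * e i → (p : ℤ) ∣ (k : ℤ) - k' := by
      intro k k' i hi h
      have h2 : v p = (v p - 1) + 1 := by have := hv1 p hp; omega
      have h3 : ((k : ℤ) - k') * L p * e i = (p : ℤ) ^ (v p - 1) * (((k : ℤ) - k') * (M p * e i)) := by
        change ((k : ℤ) - k') * ((p : ℤ) ^ (v p - 1) * M p) * e i = _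
        ring
      rw [h3, h2, pow_succ] at h
      have h4 : (p : ℤ) ∣ ((k : ℤ) - k') * (M p * e i) := by
        have h5 : (v p - 1 + 1 - 1) = v p - 1 := by omega
        rw [h5] at h
        exact (mul_dvd_mul_iff_left (pow_ne_zero _ hppz.ne_zero)).1 h
      rcases hppz.dvd_or_dvd h4 with h5 | h5
      · exact h5
      · rcases hppz.dvd_or_dvd h5 with h6 | h6
        · exact absurd h6 (hpM p hp)
        · exact absurd h6 (hei i hi)
    obtain ⟨k, -, hk⟩ := exists_avoid B p (by
      intro x k k' hk hk' h1 h2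
      refine hkk k k' hk hk' ?_
      match x, h1, h2 with
      | none, h1, h2 =>
        have h1' : (p : ℤ) ∣ 1 + k * L p := h1
        have h2' : (p : ℤ) ∣ 1 + k' * L p := h2
        have h3 := dvd_sub h1' h2'
        have h4 : (1 + (k : ℤ) * L p) - (1 + k' * L p) = ((k : ℤ) - k') * L p := by ring
        rw [h4] at h3
        rcases hppz.dvd_or_dvd h3 with h5 | h5
        · exact h5
        · exfalso
          have h6 : (p : ℤ) ∣ 1 := by
            have := dvd_sub h1' (h5.mul_left (k : ℤ))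
            simpa using this
          exact hppz.not_isUnit (isUnit_of_dvd_one h6)
      | some (i, true), h1, h2 =>
        have h1' : i ∈ A ∧ (p : ℤ) ^ v p ∣ (1 + k * L p) * e i - e j := h1
        have h2' : i ∈ A ∧ (p : ℤ) ^ v p ∣ (1 + k' * L p) * e i - e j := h2
        refine hcancel k k' i h1'.1 ?_
        have := dvd_sub h1'.2 h2'.2
        have h4 : ((1 + (k : ℤ) * L p) * e i - e j) - ((1 + (k' : ℤ) * L p) * e i - e j) =
          ((k : ℤ) - k') * L p * e i := by ring
        rwa [h4] at this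
      | some (i, false), h1, h2 =>
        have h1' : i ∈ A ∧ (p : ℤ) ^ v p ∣ (1 + k * L p) * e i + e j := h1
        have h2' : i ∈ A ∧ (p : ℤ) ^ v p ∣ (1 + k' * L p) * e i + e j := h2
        refine hcancel k k' i h1'.1 ?_
        have := dvd_sub h1'.2 h2'.2
        have h4 : ((1 + (k : ℤ) * L p) * e i + e j) - ((1 + (k' : ℤ) * L p) * e i + e j) =
          ((k : ℤ) - k') * L p * e i := by ring
        rwa [h4] at this) (by
      simp only [Fintype.card_option, Fintype.card_prod, Fintype.card_fin, Fintype.card_bool]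
      omega)
    refine ⟨k, hk none, fun i hi => ⟨fun h => hk (some (i, true)) ⟨hi, h⟩,
      fun h => hk (some (i, false)) ⟨hi, h⟩⟩⟩
  choose! k hk1 hk2 using hch
  let h : ℕ → ℤ := fun p => 1 + k p * L p
  have hcop : ∀ p ∈ P, IsCoprime (h p) (N : ℤ) := by
    intro p hp
    have hppz : Prime (p : ℤ) := Nat.prime_iff_prime_int.1 (hpp p hp)
    have h1 : (N : ℤ) = (p : ℤ) ^ N.factorization p * M p := by exact_mod_cast hNM p
    rw [h1]
    refine IsCoprime.mul_right (IsCoprime.pow_right ?_) ?_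
    · exact (hppz.coprime_iff_not_dvd.2 (hk1 p hp)).symm
    · refine ⟨1, -(k p * (p : ℤ) ^ (v p - 1)), ?_⟩
      change 1 * (1 + (k p : ℤ) * ((p : ℤ) ^ (v p - 1) * M p)) + _ = 1
      ring
  have hcore := core (n := n) (N := N) (g := g) hNng hg0 D hT A e he P h hcop (by
      intro i hi
      obtain ⟨p, hp, hdvd⟩ := hF4 i hi
      refine ⟨p, hp, ?_⟩
      have : (h p - 1) * D i = k p * (L p * D i) := by
        change (1 + (k p : ℤ) * L p - 1) * D i = _
        ring
      rw [this]
      exact hdvd.mul_left _) (by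
      intro χ hχ
      obtain ⟨a, ha⟩ := exists_SS_ne_zero χ hχ
      by_cases hu : IsUnit a
      · right
        obtain ⟨u, hu⟩ := hu
        rw [← hu] at ha
        exact SS_one_ne χ u ha
      · left
        have h1 : ¬ Nat.Coprime a.val n := by
          intro h2
          apply hu
          have := (ZMod.isUnit_iff_coprime a.val n).2 h2
          rwa [ZMod.natCast_zmod_val] at this
        obtain ⟨p, hp, hpa, hpn'⟩ := Nat.Prime.not_coprime_iff_dvd.1 h1
        have hpP : p ∈ P := Nat.mem_primeFactors.2 ⟨hp, hpn', hn0.ne'⟩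
        refine ⟨p, hpP, ?_⟩
        have hcn : IsCoprime (h p) (n : ℤ) :=
          IsCoprime.of_isCoprime_of_dvd_right (hcop p hpP) (by exact_mod_cast hnN)
        obtain ⟨u, hu'⟩ := (ZMod.coe_int_isUnit_iff_isCoprime (h p) n).2 hcn.symm
        have h2 : (u : ZMod n) * a = a := by
          rw [hu']
          have h3 : (((h p - 1) * a.val : ℤ) : ZMod n) = 0 := by
            rw [ZMod.intCast_zmod_eq_zero_iff_dvd]
            obtain ⟨z, hz⟩ := hpa
            have h4 : (h p - 1) * (a.val : ℤ) = (p * L p) * (k p * z) := by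
              rw [hz]
              push_cast
              change (1 + (k p : ℤ) * L p - 1) * _ = _
              ring
            rw [h4]
            exact (hF3 p hpP).mul_right _
          push_cast at h3
          rw [ZMod.natCast_zmod_val] at h3
          linear_combination h3
        have h5 := SS_unit χ u a
        rw [h2] at h5
        have h6 : χ ((u⁻¹ : (ZMod n)ˣ) : ZMod n) = 1 := by
          have h7 : (1 - χ ((u⁻¹ : (ZMod n)ˣ) : ZMod n)) * SS χ a = 0 := by
            rw [sub_mul, one_mul, ← h5, sub_self]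
          have := (mul_eq_zero.1 h7).resolve_right ha
          linear_combination -this
        have h8 : χ (u : ZMod n) * χ ((u⁻¹ : (ZMod n)ˣ) : ZMod n) = 1 := by
          rw [← map_mul, Units.mul_inv, map_one]
        rw [h6, mul_one, hu'] at h8
        exact h8) j (mem_filter.2 ⟨mem_univ _, dvd_rfl⟩) (by
      intro S hS hne i hi
      obtain ⟨p, hp⟩ := hne
      have hpP := hS hp
      have h1 : (p : ℤ) ^ v p ∣ (∏ q ∈ S, h q) - h p := by
        rw [← mul_prod_erase S h hp]
        have h2 : (p : ℤ) ^ v p ∣ (∏ q ∈ S.erase p, h q) - 1 := by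
          have h3 : ∀ T : Finset ℕ, T ⊆ P → p ∉ T → (p : ℤ) ^ v p ∣ (∏ q ∈ T, h q) - 1 := by
            intro T
            induction T using Finset.induction_on with
            | empty => intro _ _; simp
            | insert q T hqT ih =>
              intro hTP hpT
              rw [prod_insert hqT]
              have h4 := ih ((subset_insert _ _).trans hTP) (fun h' => hpT (mem_insert_of_mem h'))
              have hqp : q ≠ p := fun h' => hpT (h' ▸ mem_insert_self _ _)
              have h5 : (p : ℤ) ^ v p ∣ h q - 1 := by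
                have h6 := hF1 p hpP q (hTP (mem_insert_self _ _)) hqp
                have h7 : h q - 1 = k q * L q := by
                  change 1 + (k q : ℤ) * L q - 1 = _
                  ring
                rw [h7]
                exact h6.mul_left _
              have h8 : h q * ∏ x ∈ T, h x - 1 = h q * (∏ x ∈ T, h x - 1) + (h q - 1) := by ring
              rw [h8]
              exact dvd_add (h4.mul_left _) h5
          exact h3 _ ((erase_subset _ _).trans hS) (notMem_erase _ _)
        have h9 : h p * ∏ x ∈ S.erase p, h x - h p = h p * (∏ x ∈ S.erase p, h x - 1) := by ring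
        rw [h9]
        exact h2.mul_left _
      constructor
      · intro h2
        apply (hk2 p hpP i hi).1
        have h3 := dvd_sub ((hvn p).trans h2) (h1.mul_right (e i))
        have h4 : ((∏ q ∈ S, h q) * e i - e j) - ((∏ q ∈ S, h q) - h p) * e i = (1 + k p * L p) * e i - e j := by
          change _ - (_ - (1 + (k p : ℤ) * L p)) * e i = _
          ring
        rwa [h4] at h3
      · intro h2
        apply (hk2 p hpP i hi).2
        have h3 := dvd_sub ((hvn p).trans h2) (h1.mul_right (e i))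
        have h4 : ((∏ q ∈ S, h q) * e i + e j) - ((∏ q ∈ S, h q) - h p) * e i = (1 + k p * L p) * e i + e j := by
          change _ - (_ - (1 + (k p : ℤ) * L p)) * e i = _
          ring
        rwa [h4] at h3)
  have hjA : j ∈ A := mem_filter.2 ⟨mem_univ _, dvd_rfl⟩
  have h0 : j ∈ A.filter (fun i => (n : ℤ) ∣ e i - e j) := mem_filter.2 ⟨hjA, by simp⟩
  have h1 : 0 < (A.filter (fun i => (n : ℤ) ∣ e i + e j)).card := by
    rw [← hcore]
    exact card_pos.2 ⟨j, h0⟩
  obtain ⟨i, hi⟩ := card_pos.1 h1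
  obtain ⟨hiA, hi'⟩ := mem_filter.1 hi
  have h2 : (N : ℤ) ∣ D i + D j := by
    rw [(he i hiA).1, (he j hjA).1, ← mul_add]
    have : (N : ℤ) = g * n := by rw [hNng]; push_cast; ring
    rw [this]
    exact mul_dvd_mul_left _ hi'
  refine ⟨i, j, ?_, h2⟩
  rintro rfl
  apply hD i
  have h3 : (N : ℤ) ∣ 2 * D i := by rw [two_mul]; exact h2
  have h4 : IsCoprime (N : ℤ) 2 := by
    have := (Nat.coprime_two_right).2 hN
    exact_mod_cast this.isCoprime
  exact h4.dvd_of_dvd_mul_left h3

end Pool.Agent.R340.PC
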